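import Mathlib

/-!
# The weighted-majority simulation
-/

namespace Pool.Agent.H660R2.Cfg

/-- truncated weight of the index `j` -/
def wt (T j : ℕ) : ℕ := T / ((j + 1) * (j + 1))

/-- truncated weight of a list of indices -/
def wsum (T : ℕ) (V : List ℕ) : ℕ := (V.map (wt T)).sum

/-- the label given to the word number `i` by weighted majority -/
def guess (P : ℕ → ℕ → Bool) (T : ℕ) (V : List ℕ) (i : ℕ) : Bool :=
  decide (wsum T (V.filter (fun j => !(P i j))) ≤ wsum T (V.filter (fun j => P i j)))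

/-- one step: the indices in `V` which agree with the label of the word number `i` -/
def vstep (P : ℕ → ℕ → Bool) (lab : ℕ → Option Bool) (T : ℕ) (V : List ℕ) (i : ℕ) : List ℕ :=
  V.filter (fun j => P i j == (lab i).getD (guess P T V i))

/-- the simulation -/
def vrun (P : ℕ → ℕ → Bool) (lab : ℕ → Option Bool) (T n : ℕ) : List ℕ :=
  (List.range n).foldl (vstep P lab T) (List.range T)

lemma wsum_range_filter (T : ℕ) (p : ℕ → Bool) :
    wsum T ((List.range T).filter p) = ∑ j ∈ (Finset.range T).filter (fun j => p j = true), wt T j := by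
  unfold wsum
  rw [← List.sum_toFinset _ (List.Nodup.filter _ List.nodup_range)]
  congr 1
  ext j
  simp

/-- agreement with `L` on the words of number less than `n` -/
def Agree (P : ℕ → ℕ → Bool) (L : ℕ → Bool) (n j : ℕ) : Prop := ∀ i < n, P i j = L i

instance (P : ℕ → ℕ → Bool) (L : ℕ → Bool) (n j : ℕ) : Decidable (Agree P L n j) := by
  unfold Agree; infer_instance

/-- real weight of those `j < N` which agree with `L` -/
noncomputable def W (P : ℕ → ℕ → Bool) (L : ℕ → Bool) (N n : ℕ) : ℝ :=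
  ∑ j ∈ (Finset.range N).filter (Agree P L n), 1 / ((j : ℝ) + 1) ^ 2

/-- critical indices -/
def Crit (P : ℕ → ℕ → Bool) (L : ℕ → Bool) (N n : ℕ) : Prop :=
  W P L N (n + 1) ≤ 3 / 4 * W P L N n

variable {P : ℕ → ℕ → Bool} {L : ℕ → Bool}

lemma sum_inv_sq_le (a b : ℕ) (ha : 1 ≤ a) (hab : a ≤ b) :
    ∑ j ∈ Finset.Ico a b, 1 / ((j : ℝ) + 1) ^ 2 ≤ 1 / (a : ℝ) - 1 / (b : ℝ) := by
  induction b, hab using Nat.le_induction with
  | base => simp
  | succ b hb ih =>
    rw [Finset.sum_Ico_succ_top hb]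
    have hb' : (0 : ℝ) < b := by
      have : 1 ≤ b := ha.trans hb
      positivity
    have h1 : 1 / ((b : ℝ) + 1) ^ 2 ≤ 1 / (b : ℝ) - 1 / ((b : ℝ) + 1) := by
      rw [div_sub_div _ _ hb'.ne' (by positivity), div_le_div_iff₀ (by positivity) (by positivity)]
      nlinarith
    push_cast
    linarith

lemma W_zero_le (N : ℕ) : W P L N 0 ≤ 2 := by
  unfold W
  have h1 : ∑ j ∈ (Finset.range N).filter (Agree P L 0), 1 / ((j : ℝ) + 1) ^ 2 ≤
      ∑ j ∈ Finset.range N, 1 / ((j : ℝ) + 1) ^ 2 :=
    Finset.sum_le_sum_of_subset_of_nonneg (Finset.filter_subset _ _)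
      (fun _ _ _ => by positivity)
  refine h1.trans ?_
  rcases Nat.eq_zero_or_pos N with rfl | hN
  · simp
  · rw [Finset.range_eq_Ico, Finset.sum_eq_sum_Ico_succ_bot hN]
    have := sum_inv_sq_le 1 N le_rfl hN
    have h2 : (0 : ℝ) ≤ 1 / (N : ℝ) := by positivity
    have h3 : (1 : ℝ) / (((0 : ℕ) : ℝ) + 1) ^ 2 = 1 := by norm_num
    rw [h3]
    rw [Nat.cast_one] at this
    linarith

lemma W_anti (N n : ℕ) : W P L N (n + 1) ≤ W P L N n := by
  unfold W
  apply Finset.sum_le_sum_of_subset_of_nonneg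
  · intro j hj
    simp only [Finset.mem_filter] at hj ⊢
    exact ⟨hj.1, fun i hi => hj.2 i (by omega)⟩
  · intro _ _ _; positivity

lemma W_ge (N n g : ℕ) (hg : g < N) (hP : ∀ i, P i g = L i) :
    1 / ((g : ℝ) + 1) ^ 2 ≤ W P L N n := by
  unfold W
  exact Finset.single_le_sum (f := fun j : ℕ => 1 / ((j : ℝ) + 1) ^ 2)
    (fun _ _ => by positivity)
    (Finset.mem_filter.mpr ⟨Finset.mem_range.mpr hg, fun i _ => hP i⟩)

open Classical in
lemma W_le_pow (N n : ℕ) :
    W P L N n ≤ 2 * (3 / 4 : ℝ) ^ ((Finset.range n).filter (Crit P L N)).card := by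
  induction n with
  | zero => simpa using W_zero_le N
  | succ n ih =>
    rw [Finset.range_add_one, Finset.filter_insert]
    split_ifs with h
    · rw [Finset.card_insert_of_notMem (by simp), pow_succ]
      unfold Crit at h
      linarith
    · exact (W_anti N n).trans ih

open Classical in
lemma card_crit_le (N n g m : ℕ) (hg : g < N) (hP : ∀ i, P i g = L i) (hm : g + 1 ≤ 2 ^ m) :
    ((Finset.range n).filter (Crit P L N)).card ≤ 6 * m + 3 := by
  set c := ((Finset.range n).filter (Crit P L N)).card with hc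
  have h1 := W_le_pow (P := P) (L := L) N n
  have h2 := W_ge (P := P) (L := L) N n g hg hP
  by_contra hcon
  push Not at hcon
  have h3 : (3 / 4 : ℝ) ^ c ≤ (3 / 4 : ℝ) ^ (6 * m + 4) :=
    pow_le_pow_of_le_one (by norm_num) (by norm_num) hcon
  have h4 : (3 / 4 : ℝ) ^ (6 * m + 4) = ((3 / 4 : ℝ) ^ 6) ^ m * (3 / 4) ^ 4 := by
    rw [pow_add, pow_mul]
  have h5 : ((3 / 4 : ℝ) ^ 6) ^ m ≤ (1 / 4) ^ m := pow_le_pow_left₀ (by norm_num) (by norm_num) m
  have h6 : ((g : ℝ) + 1) ^ 2 ≤ 4 ^ m := by
    have h7 : ((g : ℝ) + 1) ≤ 2 ^ m := by exact_mod_cast hm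
    calc ((g : ℝ) + 1) ^ 2 ≤ (2 ^ m) ^ 2 := pow_le_pow_left₀ (by positivity) h7 2
      _ = 4 ^ m := by rw [← pow_mul, mul_comm, pow_mul]; norm_num
  have h7 : (1 / 4 : ℝ) ^ m ≤ 1 / ((g : ℝ) + 1) ^ 2 := by
    rw [div_pow, one_pow]
    exact one_div_le_one_div_of_le (by positivity) h6
  have h8 : (0 : ℝ) < 1 / ((g : ℝ) + 1) ^ 2 := by positivity
  have h9 : (3 / 4 : ℝ) ^ 4 < 1 / 2 := by norm_num
  have h10 : W P L N n ≤ 2 * ((1 / ((g : ℝ) + 1) ^ 2) * (3 / 4) ^ 4) := by
    refine h1.trans ?_
    apply mul_le_mul_of_nonneg_left _ (by norm_num)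
    rw [h4] at h3
    exact h3.trans (mul_le_mul_of_nonneg_right (h5.trans h7) (by norm_num))
  nlinarith

lemma crit_finite (N g m : ℕ) (hg : g < N) (hP : ∀ i, P i g = L i) (hm : g + 1 ≤ 2 ^ m) :
    ∃ F : Finset ℕ, (∀ i, i ∈ F ↔ Crit P L N i) ∧ F.card ≤ 6 * m + 3 := by
  classical
  have key : ∀ F : Finset ℕ, (∀ i ∈ F, Crit P L N i) → F.card ≤ 6 * m + 3 := by
    intro F hF
    refine le_trans (Finset.card_le_card ?_) (card_crit_le (P := P) (L := L) N (F.sup id + 1) g m
      hg hP hm)
    intro i hi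
    refine Finset.mem_filter.mpr ⟨Finset.mem_range.mpr ?_, hF i hi⟩
    have := Finset.le_sup (f := id) hi
    simp only [id] at this
    omega
  have hfin : {i | Crit P L N i}.Finite := by
    by_contra hinf
    obtain ⟨F, hF, hcard⟩ := Set.Infinite.exists_subset_card_eq hinf (6 * m + 4)
    have := key F (fun i hi => hF hi)
    omega
  refine ⟨hfin.toFinset, fun i => by simp, key _ (fun i hi => by simpa using hi)⟩

lemma wt_le (T j : ℕ) : (wt T j : ℝ) ≤ T * (1 / ((j : ℝ) + 1) ^ 2) := by
  unfold wt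
  have h := Nat.cast_div_le (α := ℝ) (m := T) (n := (j + 1) * (j + 1))
  refine h.trans (le_of_eq ?_)
  push_cast
  ring

lemma wt_ge (T j : ℕ) : T * (1 / ((j : ℝ) + 1) ^ 2) - 1 ≤ (wt T j : ℝ) := by
  unfold wt
  have h : T < (T / ((j + 1) * (j + 1)) + 1) * ((j + 1) * (j + 1)) := by
    exact Nat.lt_mul_of_div_lt (Nat.lt_succ_self _) (by positivity)
  have h2 : (T : ℝ) < ((T / ((j + 1) * (j + 1)) : ℕ) + 1) * (((j : ℝ) + 1) * ((j : ℝ) + 1)) := by
    exact_mod_cast h
  have h3 : (0 : ℝ) < ((j : ℝ) + 1) * ((j : ℝ) + 1) := by positivity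
  have h4 : (T : ℝ) * (1 / ((j : ℝ) + 1) ^ 2) < ((T / ((j + 1) * (j + 1)) : ℕ) + 1) := by
    rw [mul_one_div, pow_two, div_lt_iff₀ h3]
    exact h2
  linarith

lemma majority (g T n : ℕ) (hP : ∀ i, P i g = L i)
    (hT : (4 * (g + 1) ^ 2) * (4 * (g + 1) ^ 2) ≤ T) (hn : ¬ Crit P L (4 * (g + 1) ^ 2) n) :
    ∑ j ∈ (Finset.range T).filter (fun j => Agree P L n j ∧ P n j ≠ L n), wt T j <
    ∑ j ∈ (Finset.range T).filter (fun j => Agree P L n j ∧ P n j = L n), wt T j := by
  set N := 4 * (g + 1) ^ 2 with hN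
  have hN1 : 4 ≤ N := by nlinarith [Nat.zero_le g]
  have hgN : g < N := by nlinarith [Nat.zero_le g]
  have hNT : N ≤ T := le_trans (by nlinarith) hT
  have hNr : (0 : ℝ) < N := by positivity
  -- real weights of the two parts below N
  set A : ℝ := ∑ j ∈ (Finset.range N).filter (fun j => Agree P L n j ∧ P n j = L n),
    1 / ((j : ℝ) + 1) ^ 2 with hA
  set B : ℝ := ∑ j ∈ (Finset.range N).filter (fun j => Agree P L n j ∧ P n j ≠ L n),
    1 / ((j : ℝ) + 1) ^ 2 with hB
  have hAW : A = W P L N (n + 1) := by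
    rw [hA]
    unfold W
    apply Finset.sum_congr _ (fun _ _ => rfl)
    ext j
    rw [Finset.mem_filter, Finset.mem_filter]
    unfold Agree
    constructor
    · rintro ⟨h1, h2, h3⟩
      refine ⟨h1, fun i hi => ?_⟩
      rcases Nat.lt_succ_iff_lt_or_eq.mp hi with h | h
      · exact h2 i h
      · rw [h]; exact h3
    · rintro ⟨h1, h2⟩
      exact ⟨h1, fun i hi => h2 i (by omega), h2 n (by omega)⟩
  have hABW : A + B = W P L N n := by
    rw [hA, hB]
    unfold W
    rw [← Finset.filter_filter, ← Finset.filter_filter]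
    exact Finset.sum_filter_add_sum_filter_not _ _ _
  unfold Crit at hn
  push Not at hn
  have hWg := W_ge (P := P) (L := L) N n g hgN hP
  -- the lower bound
  have hlow : T * A - N ≤ ((∑ j ∈ (Finset.range T).filter
      (fun j => Agree P L n j ∧ P n j = L n), wt T j : ℕ) : ℝ) := by
    have h1 : ∑ j ∈ (Finset.range N).filter (fun j => Agree P L n j ∧ P n j = L n), (wt T j : ℝ) ≤
        ((∑ j ∈ (Finset.range T).filter (fun j => Agree P L n j ∧ P n j = L n), wt T j : ℕ) : ℝ) := by
      push_cast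
      apply Finset.sum_le_sum_of_subset_of_nonneg
      · intro j hj
        simp only [Finset.mem_filter, Finset.mem_range] at hj ⊢
        exact ⟨by omega, hj.2⟩
      · intro _ _ _; positivity
    refine le_trans ?_ h1
    have h2 : ∑ j ∈ (Finset.range N).filter (fun j => Agree P L n j ∧ P n j = L n),
        (T * (1 / ((j : ℝ) + 1) ^ 2) - 1) ≤
        ∑ j ∈ (Finset.range N).filter (fun j => Agree P L n j ∧ P n j = L n), (wt T j : ℝ) :=
      Finset.sum_le_sum fun j _ => wt_ge T j
    refine le_trans ?_ h2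
    rw [Finset.sum_sub_distrib, ← Finset.mul_sum, ← hA, Finset.sum_const, nsmul_eq_mul, mul_one]
    have h3 : (((Finset.range N).filter (fun j => Agree P L n j ∧ P n j = L n)).card : ℝ) ≤ N := by
      have := Finset.card_filter_le (Finset.range N) (fun j => Agree P L n j ∧ P n j = L n)
      rw [Finset.card_range] at this
      exact_mod_cast this
    linarith
  have hup : ((∑ j ∈ (Finset.range T).filter
      (fun j => Agree P L n j ∧ P n j ≠ L n), wt T j : ℕ) : ℝ) ≤ T * (B + 1 / N) := by
    push_cast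
    have h1 : ∑ j ∈ (Finset.range T).filter (fun j => Agree P L n j ∧ P n j ≠ L n), (wt T j : ℝ) ≤
        ∑ j ∈ (Finset.range T).filter (fun j => Agree P L n j ∧ P n j ≠ L n),
          T * (1 / ((j : ℝ) + 1) ^ 2) := Finset.sum_le_sum fun j _ => wt_le T j
    refine h1.trans ?_
    rw [← Finset.mul_sum]
    apply mul_le_mul_of_nonneg_left _ (by positivity)
    have h2 : (Finset.range T).filter (fun j => Agree P L n j ∧ P n j ≠ L n) ⊆
        (Finset.range N).filter (fun j => Agree P L n j ∧ P n j ≠ L n) ∪ Finset.Ico N T := by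
      intro j hj
      simp only [Finset.mem_filter, Finset.mem_range, Finset.mem_union, Finset.mem_Ico] at hj ⊢
      by_cases h : j < N
      · exact Or.inl ⟨h, hj.2⟩
      · exact Or.inr ⟨by omega, hj.1⟩
    refine (Finset.sum_le_sum_of_subset_of_nonneg h2 (fun _ _ _ => by positivity)).trans ?_
    rw [Finset.sum_union (by
      rw [Finset.disjoint_left]
      intro j hj hj'
      have h3 := Finset.mem_range.mp (Finset.mem_filter.mp hj).1
      have h4 := (Finset.mem_Ico.mp hj').1
      omega)]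
    have h3 := sum_inv_sq_le N T (by omega) hNT
    have h4 : (0 : ℝ) ≤ 1 / (T : ℝ) := by positivity
    rw [← hB]
    linarith
  have hfin : T * (B + 1 / N) < T * A - N := by
    have hw : 4 / (N : ℝ) ≤ W P L N n := by
      refine le_trans (le_of_eq ?_) hWg
      rw [hN]; push_cast
      field_simp
    have hTr : (N : ℝ) * N ≤ T := by exact_mod_cast hT
    have h1 : B < W P L N n / 4 := by rw [hAW] at hABW; linarith
    have h2 : 3 / 4 * W P L N n < A := by rw [hAW]; exact hn
    have h3 : 1 / (N : ℝ) + 1 / N ≤ A - B := by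
      have : 4 / (N : ℝ) = 4 * (1 / N) := by ring
      rw [this] at hw
      linarith
    have h3' : 1 / (N : ℝ) + 1 / N < A - B := by
      have : 4 / (N : ℝ) = 4 * (1 / N) := by ring
      rw [this] at hw
      linarith
    have hT0 : (0 : ℝ) < T := lt_of_lt_of_le (by positivity) hTr
    have h4 : (T : ℝ) * (1 / N) ≥ N := by
      rw [mul_one_div, ge_iff_le, le_div_iff₀ hNr]
      exact hTr
    nlinarith
  have := hup.trans_lt (hfin.trans_le hlow)
  exact_mod_cast this

lemma guess_eq (g T n : ℕ) (hP : ∀ i, P i g = L i)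
    (hT : (4 * (g + 1) ^ 2) * (4 * (g + 1) ^ 2) ≤ T) (hn : ¬ Crit P L (4 * (g + 1) ^ 2) n) :
    guess P T ((List.range T).filter (fun j => decide (Agree P L n j))) n = L n := by
  have hmaj := majority g T n hP hT hn
  have e1 : ∀ b : Bool, wsum T (((List.range T).filter (fun j => decide (Agree P L n j))).filter
      (fun j => P n j == b)) =
      ∑ j ∈ (Finset.range T).filter (fun j => Agree P L n j ∧ P n j = b), wt T j := by
    intro b
    rw [List.filter_filter, wsum_range_filter]
    apply Finset.sum_congr _ (fun _ _ => rfl)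
    ext j
    simp only [Finset.mem_filter, Bool.and_eq_true, beq_iff_eq, decide_eq_true_eq]
    tauto
  have e2 : (fun j => !(P n j)) = (fun j => P n j == false) := by
    funext j; cases P n j <;> rfl
  have e3 : (fun j => P n j) = (fun j => P n j == true) := by
    funext j; cases P n j <;> rfl
  unfold guess
  rw [e2, e3, e1, e1]
  cases hL : L n with
  | true =>
    rw [hL] at hmaj
    rw [decide_eq_true_eq]
    have e4 : ∀ j, (P n j ≠ true) ↔ (P n j = false) := fun j => by simp
    simp only [e4] at hmaj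
    exact hmaj.le
  | false =>
    rw [hL] at hmaj
    rw [decide_eq_false_iff_not, not_le]
    have e4 : ∀ j, (P n j ≠ false) ↔ (P n j = true) := fun j => by simp
    simp only [e4] at hmaj
    exact hmaj

theorem vrun_eq (g T : ℕ) (lab : ℕ → Option Bool) (hP : ∀ i, P i g = L i)
    (hT : (4 * (g + 1) ^ 2) * (4 * (g + 1) ^ 2) ≤ T)
    (hlab : ∀ i b, lab i = some b → b = L i)
    (hcrit : ∀ i, Crit P L (4 * (g + 1) ^ 2) i → lab i = some (L i)) (n : ℕ) :
    vrun P lab T n = (List.range T).filter (fun j => decide (Agree P L n j)) := by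
  induction n with
  | zero =>
    unfold vrun
    rw [List.range_zero, List.foldl_nil]
    symm
    rw [List.filter_eq_self]
    intro j _
    simp [Agree]
  | succ n ih =>
    unfold vrun at ih ⊢
    rw [List.range_succ, List.foldl_append, List.foldl_cons, List.foldl_nil, ih]
    unfold vstep
    have hb : (lab n).getD (guess P T ((List.range T).filter
        (fun j => decide (Agree P L n j))) n) = L n := by
      cases hl : lab n with
      | some b => exact hlab n b hl
      | none =>
        rw [Option.getD_none]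
        apply guess_eq g T n hP hT
        intro hc
        rw [hcrit n hc] at hl
        simp at hl
    rw [hb, List.filter_filter]
    apply List.filter_congr
    intro j _
    rw [Bool.eq_iff_iff, Bool.and_eq_true, decide_eq_true_eq, decide_eq_true_eq, beq_iff_eq]
    unfold Agree
    constructor
    · rintro ⟨h1, h2⟩ i hi
      rcases Nat.lt_succ_iff_lt_or_eq.mp hi with h | h
      · exact h2 i h
      · rw [h]; exact h1
    · intro h
      exact ⟨h n (by omega), fun i hi => h i (by omega)⟩

theorem vrun_head (P : ℕ → ℕ → Bool) (L : ℕ → Bool) (g : ℕ) (hP : ∀ i, P i g = L i) :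
    ∃ T₀, ∀ T ≥ T₀, ∀ lab : ℕ → Option Bool, (∀ i b, lab i = some b → b = L i) →
      (∀ i, Crit P L (4 * (g + 1) ^ 2) i → lab i = some (L i)) →
      ∃ j, (vrun P lab T T).head? = some j ∧ ∀ i, P i j = L i := by
  have hex : ∀ j, ∃ i, (¬ ∀ i, P i j = L i) → P i j ≠ L i := by
    intro j
    by_cases h : ∀ i, P i j = L i
    · exact ⟨0, fun h' => absurd h h'⟩
    · push Not at h
      obtain ⟨i, hi⟩ := h
      exact ⟨i, fun _ => hi⟩
  choose f hf using hex
  refine ⟨(4 * (g + 1) ^ 2) * (4 * (g + 1) ^ 2) + (g + 1) + ∑ j ∈ Finset.range (g + 1), (f j + 1),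
    fun T hT lab hlab hcrit => ?_⟩
  have h0 := vrun_eq g T lab hP (by omega) hlab hcrit T
  rw [h0]
  have hg : g ∈ (List.range T).filter (fun j => decide (Agree P L T j)) := by
    simp only [List.mem_filter, List.mem_range, decide_eq_true_eq]
    exact ⟨by omega, fun i _ => hP i⟩
  have hpw : ((List.range T).filter (fun j => decide (Agree P L T j))).Pairwise (· < ·) :=
    List.Pairwise.filter _ List.pairwise_lt_range
  cases hl : (List.range T).filter (fun j => decide (Agree P L T j)) with
  | nil => rw [hl] at hg; simp at hg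
  | cons j l =>
    refine ⟨j, rfl, ?_⟩
    rw [hl] at hg hpw
    have hjg : j ≤ g := by
      rcases List.mem_cons.mp hg with h | h
      · exact h.symm.le
      · exact (List.rel_of_pairwise_cons hpw h).le
    have hj : j ∈ (List.range T).filter (fun j => decide (Agree P L T j)) := by
      rw [hl]; simp
    simp only [List.mem_filter, List.mem_range, decide_eq_true_eq] at hj
    by_contra hcon
    have h1 := hf j hcon
    apply h1
    apply hj.2
    have h2 : f j + 1 ≤ ∑ j ∈ Finset.range (g + 1), (f j + 1) :=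
      Finset.single_le_sum (f := fun j => f j + 1) (fun _ _ => Nat.zero_le _)
        (Finset.mem_range.mpr (by omega))
    omega

end Pool.Agent.H660R2.Cfg
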