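import Pool.Agent.H660R2.Cfg.PolyMemb
import Pool.Agent.H660R2.Cfg.Conv

/-!
# The learner
-/

namespace Pool.Agent.NPC.H660

open Pool.Agent.H660R2.Cfg

/-- A sample: the lists of positive and of negative strings. -/
abbrev Sample (k : ℕ) := List (Word k) × List (Word k)

/-- the bit string number `i` -/
def code (i : ℕ) : List Bool := i.bits.reverse.tail.reverse

/-- the number of a bit string -/
def idx (l : List Bool) : ℕ := valB (l ++ [true])

lemma normB_append_true (l : List Bool) : (valB (l ++ [true])).bits = l ++ [true] := by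
  induction l with
  | nil => simp [valB]
  | cons b l ih =>
    rw [List.cons_append, valB_cons]
    have h1 : valB (l ++ [true]) ≠ 0 := by
      intro h
      rw [h] at ih
      simp at ih
    cases b with
    | false =>
      have : (if false = true then 1 else 0) + 2 * valB (l ++ [true]) =
          2 * valB (l ++ [true]) := by simp
      rw [this, Nat.bit0_bits _ h1, ih]
    | true =>
      have : (if true = true then 1 else 0) + 2 * valB (l ++ [true]) =
          2 * valB (l ++ [true]) + 1 := by simp [add_comm]
      rw [this, Nat.bit1_bits, ih]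

lemma code_idx (l : List Bool) : code (idx l) = l := by
  unfold code idx
  rw [normB_append_true, List.reverse_append]
  simp

lemma idx_lt (l : List Bool) : idx l < 2 ^ (l.length + 1) := by
  have := valB_lt (l ++ [true])
  rwa [List.length_append] at this

/-- the word number `i` -/
def wordOf (k i : ℕ) : Word k := (unbits (Word k) (code i)).getD []

/-- the grammar number `i` -/
def gramOf (k i : ℕ) : Gram k := (unbits (Gram k) (code i)).getD []

lemma wordOf_idx {k : ℕ} (w : Word k) : wordOf k (idx (bits w)) = w := by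
  unfold wordOf
  rw [code_idx, unbits_bits]
  rfl

lemma gramOf_idx {k : ℕ} (G : Gram k) : gramOf k (idx (bits G)) = G := by
  unfold gramOf
  rw [code_idx, unbits_bits]
  rfl

/-- the membership matrix -/
def mat (k i j : ℕ) : Bool := memb (wordOf k i) (gramOf k j)

/-- the label of the word number `i` in the sample, if any -/
def lab {k : ℕ} (S : Sample k) (i : ℕ) : Option Bool :=
  if wordOf k i ∈ S.1 then some true else if wordOf k i ∈ S.2 then some false else none

/-- the number of steps of the simulation: the total length of the strings in the sample -/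
def total {k : ℕ} (S : Sample k) : ℕ := (S.1 ++ S.2).flatten.length

/-- the grammar generating exactly the positive strings of the sample -/
def fallback {k : ℕ} (S : Sample k) : Gram k := S.1.map (fun w => ((0 : ℕ), w.map Sum.inr))

/-- the candidate grammar -/
def cand {k : ℕ} (S : Sample k) : Gram k :=
  ((vrun (mat k) (lab S) (total S) (total S)).head?.map (gramOf k)).getD (fallback S)

/-- is the grammar consistent with the sample? -/
def consist {k : ℕ} (S : Sample k) (G : Gram k) : Bool :=
  S.1.all (fun w => memb w G) && S.2.all (fun w => !(memb w G))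

/-- The learner. -/
def learner {k : ℕ} (S : Sample k) : Gram k := bif consist S (cand S) then cand S else fallback S

/-! ### Polynomial time -/

variable {α : Type} [TEnc α] {k : ℕ}

lemma poly_code : Poly code :=
  Poly.reverse (Poly.tail (Poly.reverse (Poly.natBits Poly.id)))

lemma poly_wordOf (k : ℕ) : Poly (wordOf k) :=
  Poly.optGetD (o := fun i => unbits (Word k) (code i)) (g := fun _ => ([] : Word k))
    (poly_unbits.comp poly_code) (Poly.const _)

lemma poly_gramOf (k : ℕ) : Poly (gramOf k) :=
  Poly.optGetD (o := fun i => unbits (Gram k) (code i)) (g := fun _ => ([] : Gram k))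
    (poly_unbits.comp poly_code) (Poly.const _)

lemma poly_mat (k : ℕ) : Poly (fun x : ℕ × ℕ => mat k x.1 x.2) :=
  poly_memb.comp (f := fun x : ℕ × ℕ => (wordOf k x.1, gramOf k x.2))
    (Poly.pair ((poly_wordOf k).comp (Poly.fst Poly.id)) ((poly_gramOf k).comp (Poly.snd Poly.id)))

lemma poly_lab : Poly (fun x : Sample k × ℕ => lab x.1 x.2) := by
  unfold lab
  have h1 : Poly (fun x : Sample k × ℕ => wordOf k x.2) := (poly_wordOf k).comp (Poly.snd Poly.id)
  refine Poly.ite (Poly.dec_mem h1 (by fun_prop)) (Poly.const _)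
    (Poly.ite (Poly.dec_mem h1 (by fun_prop)) (Poly.const _) (Poly.const _))

lemma uPoly_total : UPoly (fun S : Sample k => total S) :=
  UPoly.length (Poly.flatten (Poly.append (Poly.fst Poly.id) (Poly.snd Poly.id)))

lemma poly_wt : Poly (fun x : ℕ × ℕ => wt x.1 x.2) := by
  unfold wt
  fun_prop

lemma poly_wsum : Poly (fun x : ℕ × List ℕ => wsum x.1 x.2) := by
  unfold wsum
  exact Poly.sum (Poly.map (F := fun (x : ℕ × List ℕ) j => wt x.1 j) (Poly.snd Poly.id)
    (poly_wt.comp (f := fun y : (ℕ × List ℕ) × ℕ => (y.1.1, y.2)) (by fun_prop)))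

attribute [local irreducible] mat wt wsum in
lemma poly_guess : Poly (fun x : ℕ × List ℕ × ℕ => guess (mat k) x.1 x.2.1 x.2.2) := by
  unfold guess
  have h1 : Poly (fun y : (ℕ × List ℕ × ℕ) × ℕ => mat k y.1.2.2 y.2) :=
    (poly_mat k).comp (f := fun y : (ℕ × List ℕ × ℕ) × ℕ => (y.1.2.2, y.2)) (by fun_prop)
  have h2 : Poly (fun x : ℕ × List ℕ × ℕ => x.2.1.filter (fun j => !(mat k x.2.2 j))) :=
    Poly.filter (p := fun (x : ℕ × List ℕ × ℕ) j => !(mat k x.2.2 j)) (by fun_prop) (Poly.not h1)
  have h3 : Poly (fun x : ℕ × List ℕ × ℕ => x.2.1.filter (fun j => mat k x.2.2 j)) :=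
    Poly.filter (p := fun (x : ℕ × List ℕ × ℕ) j => mat k x.2.2 j) (by fun_prop) h1
  exact Poly.decide_le (poly_wsum.comp (Poly.pair (Poly.fst Poly.id) h2))
    (poly_wsum.comp (Poly.pair (Poly.fst Poly.id) h3))

attribute [local irreducible] mat wt wsum guess lab total in
lemma poly_vstep : Poly (fun x : Sample k × List ℕ × ℕ =>
    vstep (mat k) (lab x.1) (total x.1) x.2.1 x.2.2) := by
  unfold vstep
  refine Poly.filter (p := fun (x : Sample k × List ℕ × ℕ) j => mat k x.2.2 j ==
    (lab x.1 x.2.2).getD (guess (mat k) (total x.1) x.2.1 x.2.2)) (by fun_prop) ?_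
  have h1 : Poly (fun y : (Sample k × List ℕ × ℕ) × ℕ => mat k y.1.2.2 y.2) :=
    (poly_mat k).comp (f := fun y : (Sample k × List ℕ × ℕ) × ℕ => (y.1.2.2, y.2)) (by fun_prop)
  have h2 : Poly (fun y : (Sample k × List ℕ × ℕ) × ℕ => lab y.1.1 y.1.2.2) :=
    poly_lab.comp (f := fun y : (Sample k × List ℕ × ℕ) × ℕ => (y.1.1, y.1.2.2)) (by fun_prop)
  have h0 : Poly (fun y : (Sample k × List ℕ × ℕ) × ℕ => total y.1.1) :=
    uPoly_total.toPoly.comp (Poly.fst (Poly.fst Poly.id))
  have h3 : Poly (fun y : (Sample k × List ℕ × ℕ) × ℕ =>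
      guess (mat k) (total y.1.1) y.1.2.1 y.1.2.2) :=
    poly_guess.comp (f := fun y : (Sample k × List ℕ × ℕ) × ℕ =>
      (total y.1.1, y.1.2.1, y.1.2.2)) (Poly.pair h0 (by fun_prop))
  have h4 := Poly.optGetD h2 h3
  refine (Poly.decide_eq h1 h4).congr fun y => ?_
  rw [Bool.eq_iff_iff, decide_eq_true_eq, beq_iff_eq]

lemma sz_foldl_vstep_le (P : ℕ → ℕ → Bool) (lb : ℕ → Option Bool) (T : ℕ) (l V : List ℕ) :
    sz (l.foldl (vstep P lb T) V) ≤ sz V := by
  induction l generalizing V with
  | nil => exact le_rfl
  | cons i l ih =>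
    rw [List.foldl_cons]
    exact (ih _).trans (sz_filter_le _ _)

attribute [local irreducible] mat wt wsum guess lab total vstep in
lemma poly_vrun : Poly (fun S : Sample k => vrun (mat k) (lab S) (total S) (total S)) := by
  unfold vrun
  obtain ⟨q, hq⟩ := (uPoly_total (k := k)).range.sz_le
  refine Poly.foldl (F := fun (S : Sample k) V i => vstep (mat k) (lab S) (total S) V i)
    uPoly_total.range uPoly_total.range poly_vstep q ?_
  intro S n _
  exact (sz_foldl_vstep_le _ _ _ _ _).trans (hq S)

lemma poly_fallback : Poly (fun S : Sample k => fallback S) := by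
  unfold fallback
  refine Poly.map (F := fun (_ : Sample k) (w : Word k) =>
    ((0 : ℕ), (w.map Sum.inr : List (ℕ ⊕ Fin k)))) (Poly.fst Poly.id) ?_
  refine Poly.pair (Poly.const _) ?_
  exact Poly.map (F := fun (_ : Sample k × Word k) (c : Fin k) => (Sum.inr c : ℕ ⊕ Fin k))
    (Poly.snd Poly.id) (Poly.inr (Poly.snd Poly.id))

attribute [local irreducible] mat wt wsum guess lab total vstep vrun fallback in
lemma poly_cand : Poly (fun S : Sample k => cand S) := by
  unfold cand
  refine Poly.optGetD (o := fun S : Sample k => (vrun (mat k) (lab S) (total S)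
    (total S)).head?.map (gramOf k)) ?_ poly_fallback
  exact Poly.optMap_fp (h := fun (_ : Sample k) j => gramOf k j) (Poly.head? poly_vrun)
    ((poly_gramOf k).comp (Poly.snd Poly.id))

attribute [local irreducible] memb in
lemma poly_consist : Poly (fun x : Sample k × Gram k => consist x.1 x.2) := by
  unfold consist
  have h1 : Poly (fun y : (Sample k × Gram k) × Word k => memb y.2 y.1.2) :=
    poly_memb.comp (f := fun y : (Sample k × Gram k) × Word k => (y.2, y.1.2)) (by fun_prop)
  exact Poly.and
    (Poly.all (p := fun (x : Sample k × Gram k) w => memb w x.2) (by fun_prop) h1)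
    (Poly.all (p := fun (x : Sample k × Gram k) w => !(memb w x.2)) (by fun_prop) (Poly.not h1))

attribute [local irreducible] cand fallback consist in
/-- The learner runs in polynomial time. -/
theorem poly_learner : Poly (fun S : Sample k => learner S) := by
  unfold learner
  exact Poly.cond (poly_consist.comp (Poly.pair Poly.id poly_cand)) poly_cand poly_fallback

end Pool.Agent.NPC.H660
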