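import Pool.Agent.H660R2.Cfg.PolyMemb

/-!
# Every context-free grammar as data
-/

namespace Pool.Agent.NPC.H660

open Pool.Agent.H660R2.Cfg

/-- The size of a grammar: the total length of its productions (each production counts the length
of its right-hand side plus one). -/
def gsize {k : ℕ} (G : ContextFreeGrammar (Fin k)) : ℕ := ∑ r ∈ G.rules, (r.output.length + 1)

variable {k : ℕ}

/-- the nonterminals in a string of symbols -/
def ntOf {T N : Type} : Symbol T N → Option N
  | .nonterminal A => some A
  | .terminal _ => none

/-- The list of the nonterminals which matter. -/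
noncomputable def nts (G : ContextFreeGrammar (Fin k)) : List G.NT :=
  G.initial :: G.rules.toList.flatMap (fun r => r.input :: r.output.filterMap ntOf)

open Classical in
/-- the number of a nonterminal -/
noncomputable def ix (G : ContextFreeGrammar (Fin k)) (A : G.NT) : ℕ := (nts G).idxOf A

/-- renaming of the nonterminals in a symbol -/
def conv {T N : Type} (f : N → ℕ) : Symbol T N → ℕ ⊕ T
  | .nonterminal A => Sum.inl (f A)
  | .terminal a => Sum.inr a

/-- The grammar as data. -/
noncomputable def toGram (G : ContextFreeGrammar (Fin k)) : Gram k :=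
  G.rules.toList.map (fun r => (ix G r.input, r.output.map (conv (ix G))))

lemma conv_eq {T N : Type} (f : N → ℕ) (s : Symbol T N) :
    conv f s = Sum.map f id (ofSym s) := by
  cases s <;> rfl

lemma conv_toSym {T N : Type} (f : N → ℕ) (s : N ⊕ T) : conv f (toSym s) = Sum.map f id s := by
  cases s <;> rfl

lemma ix_inj (G : ContextFreeGrammar (Fin k)) {A B : G.NT} (hA : A ∈ nts G)
    (h : ix G A = ix G B) : A = B := by
  classical
  unfold ix at h
  exact (List.idxOf_inj hA).mp h

lemma ix_initial (G : ContextFreeGrammar (Fin k)) : ix G G.initial = 0 := by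
  unfold ix nts
  simp

lemma input_mem (G : ContextFreeGrammar (Fin k)) {r : ContextFreeRule (Fin k) G.NT}
    (hr : r ∈ G.rules) : r.input ∈ nts G := by
  unfold nts
  refine List.mem_cons_of_mem _ (List.mem_flatMap.mpr ⟨r, Finset.mem_toList.mpr hr, ?_⟩)
  simp

lemma output_mem (G : ContextFreeGrammar (Fin k)) {r : ContextFreeRule (Fin k) G.NT}
    (hr : r ∈ G.rules) {A : G.NT} (hA : Sum.inl A ∈ r.output.map ofSym) : A ∈ nts G := by
  unfold nts
  refine List.mem_cons_of_mem _ (List.mem_flatMap.mpr ⟨r, Finset.mem_toList.mpr hr, ?_⟩)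
  refine List.mem_cons_of_mem _ (List.mem_filterMap.mpr ?_)
  obtain ⟨s, hs, hs'⟩ := List.mem_map.mp hA
  refine ⟨s, hs, ?_⟩
  cases s with
  | terminal a => simp [ofSym] at hs'
  | nonterminal B =>
    simp only [ofSym, Sum.inl.injEq] at hs'
    rw [← hs']; rfl

lemma yield_fwd (G : ContextFreeGrammar (Fin k)) {s : List (G.NT ⊕ Fin k)} {v : Word k}
    (h : Yield (ruleRel G) s v) :
    Yield (gramRel (toGram G)) (s.map (Sum.map (ix G) id)) v := by
  induction h with
  | nil => exact Yield.nil
  | term a h ih => exact Yield.term a ih
  | @nt A rhs s v₁ v₂ hr h₁ h₂ ih₁ ih₂ =>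
    refine Yield.nt ?_ ih₁ ih₂
    unfold gramRel toGram
    refine List.mem_map.mpr ⟨_, Finset.mem_toList.mpr hr, ?_⟩
    simp only [List.map_map, Prod.mk.injEq, true_and]
    apply List.map_congr_left
    intro x _
    exact conv_toSym _ x

lemma yield_bwd (G : ContextFreeGrammar (Fin k)) {s' : List (ℕ ⊕ Fin k)} {v : Word k}
    (h : Yield (gramRel (toGram G)) s' v) : ∀ s : List (G.NT ⊕ Fin k),
      s' = s.map (Sum.map (ix G) id) → (∀ A, Sum.inl A ∈ s → A ∈ nts G) →
      Yield (ruleRel G) s v := by
  induction h with
  | nil =>
    intro s hs _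
    rw [eq_comm, List.map_eq_nil_iff] at hs
    rw [hs]; exact Yield.nil
  | @term a s' v h ih =>
    intro s hs hA
    cases s with
    | nil => simp at hs
    | cons x s =>
      rw [List.map_cons, List.cons.injEq] at hs
      cases x with
      | inl B => simp at hs
      | inr b =>
        have : a = b := by simpa using hs.1
        subst this
        exact Yield.term a (ih s hs.2 fun A hA' => hA A (List.mem_cons_of_mem _ hA'))
  | @nt A rhs' s' v₁ v₂ hr h₁ h₂ ih₁ ih₂ =>
    intro s hs hA
    cases s with
    | nil => simp at hs
    | cons x s =>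
      rw [List.map_cons, List.cons.injEq] at hs
      cases x with
      | inr b => simp at hs
      | inl B =>
        have hB : A = ix G B := by simpa using hs.1
        unfold gramRel toGram at hr
        obtain ⟨r, hr', he⟩ := List.mem_map.mp hr
        rw [Finset.mem_toList] at hr'
        rw [Prod.mk.injEq] at he
        have hBr : r.input = B := ix_inj G (input_mem G hr') (he.1.trans hB)
        have hrhs : rhs' = (r.output.map ofSym).map (Sum.map (ix G) id) := by
          rw [← he.2, List.map_map]
          apply List.map_congr_left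
          intro x _
          exact conv_eq _ x
        refine Yield.nt (rhs := r.output.map ofSym) ?_
          (ih₁ _ hrhs fun A hA' => output_mem G hr' hA')
          (ih₂ s hs.2 fun A hA' => hA A (List.mem_cons_of_mem _ hA'))
        unfold ruleRel
        rw [map_toSym_ofSym, ← hBr]
        exact hr'

theorem lang_toGram (G : ContextFreeGrammar (Fin k)) : gramLang (toGram G) = G.language := by
  ext v
  rw [mem_language_iff_yield, mem_gramLang_iff]
  have h0 : (∃ rhs, (0, rhs) ∈ toGram G ∧ Yield (gramRel (toGram G)) rhs v) ↔
      Yield (gramRel (toGram G)) [Sum.inl 0] v :=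
    (Yield.single (R := gramRel (toGram G)) (A := 0) (v := v)).symm
  rw [h0]
  constructor
  · intro h
    refine yield_bwd G h [Sum.inl G.initial] ?_ ?_
    · simp [ix_initial]
    · intro A hA
      have : A = G.initial := by simpa using hA
      rw [this]
      unfold nts
      simp
  · intro h
    have := yield_fwd G h
    simpa [ix_initial] using this

/-! ### Size -/

lemma sz_list_eq {β : Type} [TEnc β] (l : List β) :
    sz l = (l.map (fun a => sz a + 1)).sum + 1 := by
  induction l with
  | nil => simp
  | cons a l ih => simp only [sz_list_cons, List.map_cons, List.sum_cons]; omega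

lemma gsize_eq (G : ContextFreeGrammar (Fin k)) :
    gsize G = (G.rules.toList.map (fun r => r.output.length + 1)).sum := by
  unfold gsize
  rw [← Finset.sum_map_toList]

lemma length_nts_le (G : ContextFreeGrammar (Fin k)) : (nts G).length ≤ gsize G + 1 := by
  unfold nts
  rw [List.length_cons, gsize_eq, List.length_flatMap]
  apply Nat.add_le_add_right
  apply List.sum_le_sum
  intro r _
  rw [List.length_cons]
  have := List.length_filterMap_le ntOf r.output
  omega

lemma sz_nat_le_self (n : ℕ) : sz n ≤ 4 * n + 1 := by
  have h1 := sz_nat_le n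
  have h2 := Poly.size_le_self n
  omega

lemma ix_le (G : ContextFreeGrammar (Fin k)) (A : G.NT) : ix G A ≤ gsize G + 1 := by
  classical
  have h1 : ix G A ≤ (nts G).length := by
    unfold ix
    exact List.idxOf_le_length
  exact h1.trans (length_nts_le G)

lemma sz_toGram_le (G : ContextFreeGrammar (Fin k)) :
    sz (toGram G) ≤ gsize G * (4 * gsize G + (4 * k + 16)) + 1 := by
  set n := gsize G with hn
  have hsym : ∀ x : Symbol (Fin k) G.NT, sz (conv (ix G) x) ≤ 4 * n + 4 * k + 7 := by
    intro x
    cases x with
    | nonterminal A =>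
      have h1 : sz (conv (ix G) (Symbol.nonterminal A : Symbol (Fin k) G.NT)) =
          sz (ix G A) + 2 := sz_inl _
      have h2 := sz_nat_le_self (ix G A)
      have h3 := ix_le G A
      omega
    | terminal a =>
      have h1 : sz (conv (ix G) (Symbol.terminal a : Symbol (Fin k) G.NT)) = sz (a : ℕ) + 4 :=
        sz_inr a
      have h2 := sz_nat_le_self (a : ℕ)
      have h3 := a.2
      omega
  have hrule : ∀ r : ContextFreeRule (Fin k) G.NT,
      sz ((ix G r.input, r.output.map (conv (ix G))) : ℕ × List (ℕ ⊕ Fin k)) + 1 ≤
        (r.output.length + 1) * (4 * n + (4 * k + 16)) := by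
    intro r
    have h1 : sz (r.output.map (conv (ix G))) ≤
        (r.output.map (conv (ix G))).length * ((4 * n + 4 * k + 7) + 1) + 1 := by
      apply sz_le_length_mul
      intro a ha
      obtain ⟨x, _, rfl⟩ := List.mem_map.mp ha
      exact hsym x
    rw [List.length_map] at h1
    have h2 := sz_nat_le_self (ix G r.input)
    have h3 := ix_le G r.input
    rw [sz_pair]
    nlinarith [Nat.zero_le r.output.length]
  have h1 : sz (toGram G) = (G.rules.toList.map (fun r =>
      sz ((ix G r.input, r.output.map (conv (ix G))) : ℕ × List (ℕ ⊕ Fin k)) + 1)).sum + 1 := by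
    rw [sz_list_eq]
    unfold toGram
    rw [List.map_map]
    rfl
  rw [h1]
  apply Nat.add_le_add_right
  have h2 : (G.rules.toList.map (fun r =>
      sz ((ix G r.input, r.output.map (conv (ix G))) : ℕ × List (ℕ ⊕ Fin k)) + 1)).sum ≤
      (G.rules.toList.map (fun r => (r.output.length + 1) * (4 * n + (4 * k + 16)))).sum :=
    List.sum_le_sum fun r _ => hrule r
  refine h2.trans (le_of_eq ?_)
  rw [List.sum_map_mul_right, hn, ← gsize_eq]

end Pool.Agent.NPC.H660
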