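import Pool.Agent.H660R2.Cfg.Learner
import Pool.Agent.H660R2.Cfg.Rename

/-!
# Characteristic samples with few strings
-/

namespace Pool.Agent.NPC.H660

open Pool.Agent.H660R2.Cfg Turing

/-- The sample is consistent with the language. -/
def ConsistentWith {k : ℕ} (S : Sample k) (L : Language (Fin k)) : Prop :=
  (∀ w ∈ S.1, w ∈ L) ∧ ∀ w ∈ S.2, w ∉ L

/-- `A` is a learner: it is computed by a Turing machine (Mathlib's `TM2`) in time polynomial in the
length of the code of the sample, and for every sample (with disjoint positive and negative parts)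
it outputs a grammar whose language is consistent with the sample. -/
def IsLearner {k : ℕ} (A : Sample k → Gram k) : Prop :=
  Nonempty (TM2ComputableInPolyTime (bits : Sample k → List Bool) (bits : Gram k → List Bool) A) ∧
  ∀ S : Sample k, (∀ w ∈ S.1, w ∉ S.2) → ConsistentWith S (gramLang (A S))

/-- The pair `CS` of finite sets of strings is characteristic for the language `L` with respect to
the learner `A`. -/
def IsCharacteristic {k : ℕ} (A : Sample k → Gram k) (CS : Finset (Word k) × Finset (Word k))
    (L : Language (Fin k)) : Prop :=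
  ((∀ w ∈ CS.1, w ∈ L) ∧ ∀ w ∈ CS.2, w ∉ L) ∧
  ∀ S : Sample k, ConsistentWith S L → (∀ w ∈ CS.1, w ∈ S.1) → (∀ w ∈ CS.2, w ∈ S.2) →
    gramLang (A S) = L

variable {k : ℕ}

/-- A program computing `f` between encoded types gives a Turing machine. -/
theorem toTM2 {α β : Type} {ea : α → List Bool} {eb : β → List Bool} {f : α → β}
    (h : PC ea eb f) : Nonempty (TM2ComputableInPolyTime ea eb f) := by
  obtain ⟨c, p, h⟩ := h
  have key : ∀ x : α, ∃ t, t ≤ p.eval (ea x).length + 1 ∧
      Nonempty (TM2OutputsInTime (c.map (Fin.ofNat (c.bd + 1))).toTM (ea x)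
        (some (eb (f x))) t) := by
    intro x
    obtain ⟨t, ht, hr⟩ := h x
    have h1 := hr.restrict (n := c.bd) (by omega)
    refine ⟨t + 1, by simpa using ht, toTM_outputs ?_⟩
    convert! h1 using 1
    · funext i
      by_cases hi : i = 0
      · subst hi; simp [inp]
      · have : (i : ℕ) ≠ 0 := fun h => hi (Fin.ext h)
        simp [inp, hi, this]
    · funext i
      by_cases hi : i = 0
      · subst hi; simp [inp]
      · have : (i : ℕ) ≠ 0 := fun h => hi (Fin.ext h)
        simp [inp, hi, this]
  refine ⟨{ tm := (c.map (Fin.ofNat (c.bd + 1))).toTM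
            inputAlphabet := Equiv.refl Bool
            outputAlphabet := Equiv.refl Bool
            time := p + 1
            outputsFun := ?_ }⟩
  intro x
  have hx := key x
  have ht := hx.choose_spec.1
  have hm := hx.choose_spec.2.some
  refine outputs_conv (List.map_id (ea x)).symm (List.map_id (eb (f x))).symm (ht.trans ?_) hm
  simp

lemma yield_terms_iff {R : ℕ → List (ℕ ⊕ Fin k) → Prop} (w v : Word k) :
    Yield R (w.map Sum.inr) v ↔ v = w := by
  constructor
  · intro h
    induction w generalizing v with
    | nil => cases h; rfl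
    | cons a w ih =>
      cases h with
      | term _ h => rw [ih _ h]
  · rintro rfl
    exact Yield.terms _

lemma mem_fallback (S : Sample k) (v : Word k) : v ∈ gramLang (fallback S) ↔ v ∈ S.1 := by
  rw [mem_gramLang_iff]
  unfold fallback
  constructor
  · rintro ⟨rhs, h1, h2⟩
    obtain ⟨w, hw, he⟩ := List.mem_map.mp h1
    rw [Prod.mk.injEq] at he
    rw [← he.2, yield_terms_iff] at h2
    rw [h2]; exact hw
  · intro h
    exact ⟨v.map Sum.inr, List.mem_map.mpr ⟨v, h, rfl⟩, Yield.terms v⟩

lemma consist_iff (S : Sample k) (G : Gram k) :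
    consist S G = true ↔ ConsistentWith S (gramLang G) := by
  unfold consist ConsistentWith
  simp only [Bool.and_eq_true, List.all_eq_true, memb_iff, Bool.not_eq_true',
    Bool.eq_false_iff, ne_eq]

theorem isLearner_learner : IsLearner (learner : Sample k → Gram k) := by
  refine ⟨toTM2 poly_learner, fun S hS => ?_⟩
  unfold learner
  cases h : consist S (cand S) with
  | true => rw [cond_true]; exact (consist_iff S _).mp h
  | false =>
    rw [cond_false]
    refine ⟨fun w hw => (mem_fallback S w).mpr hw, fun w hw hw' => ?_⟩
    exact hS w ((mem_fallback S w).mp hw') hw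

lemma learner_eq_of_consist (S : Sample k) (h : ConsistentWith S (gramLang (cand S))) :
    learner S = cand S := by
  unfold learner
  rw [(consist_iff S _).mpr h, cond_true]

lemma length_le_total (S : Sample k) (w : Word k) (hw : w ∈ S.1 ∨ w ∈ S.2) :
    w.length ≤ total S := by
  unfold total
  rw [List.length_flatten]
  apply List.le_sum_of_mem
  exact List.mem_map.mpr ⟨w, List.mem_append.mpr hw, rfl⟩

open Classical in
/-- the set `X` of strings, split according to `L` -/
noncomputable def splitBy (X : Finset (Word k)) (L : Language (Fin k)) :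
    Finset (Word k) × Finset (Word k) := (X.filter (· ∈ L), X.filter (· ∉ L))

lemma splitBy_card (X : Finset (Word k)) (L : Language (Fin k)) :
    (splitBy X L).1.card + (splitBy X L).2.card = X.card := by
  classical
  exact Finset.card_filter_add_card_filter_not _

theorem char_zero (L : Language (Fin 0)) :
    ∃ X : Finset (Word 0), IsCharacteristic learner (splitBy X L) L ∧ X.card ≤ 1 := by
  classical
  refine ⟨{[]}, ⟨⟨?_, ?_⟩, ?_⟩, by simp⟩
  · intro w hw; exact (Finset.mem_filter.mp hw).2
  · intro w hw; exact (Finset.mem_filter.mp hw).2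
  · intro S hS h1 _
    have hnil : ∀ w : Word 0, w = [] := by
      intro w
      cases w with
      | nil => rfl
      | cons a _ => exact a.elim0
    have htot : total S = 0 := by
      unfold total
      rw [hnil (S.1 ++ S.2).flatten]
      rfl
    have hc : cand S = fallback S := by
      unfold cand
      rw [htot]
      rfl
    have hl : learner S = fallback S := by
      unfold learner
      rw [hc]
      cases consist S (fallback S) <;> rfl
    rw [hl]
    ext v
    rw [mem_fallback]
    constructor
    · intro h; exact hS.1 v h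
    · intro h
      apply h1
      rw [hnil v] at h ⊢
      exact Finset.mem_filter.mpr ⟨by simp, h⟩

theorem char_pos (G : Gram (k + 1)) :
    ∃ X : Finset (Word (k + 1)), IsCharacteristic learner (splitBy X (gramLang G)) (gramLang G) ∧
      X.card ≤ 6 * (sz G + 1) + 4 := by
  classical
  set g := idx (bits G) with hg
  have hgG : gramOf (k + 1) g = G := gramOf_idx G
  set L : ℕ → Bool := fun i => memb (wordOf (k + 1) i) G with hL
  have hP : ∀ i, mat (k + 1) i g = L i := by
    intro i
    unfold mat
    rw [hgG]
  obtain ⟨T₀, hT₀⟩ := vrun_head (mat (k + 1)) L g hP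
  have hgN : g < 4 * (g + 1) ^ 2 := by nlinarith [Nat.zero_le g]
  have hm : g + 1 ≤ 2 ^ (sz G + 1) := by
    have := idx_lt (bits G)
    rw [bits_length] at this
    omega
  obtain ⟨F, hF, hFc⟩ := crit_finite (P := mat (k + 1)) (L := L) (4 * (g + 1) ^ 2) g (sz G + 1)
    hgN hP hm
  set pad : Word (k + 1) := List.replicate T₀ 0 with hpad
  refine ⟨insert pad (F.image (wordOf (k + 1))), ⟨⟨?_, ?_⟩, ?_⟩, ?_⟩
  · intro w hw; exact (Finset.mem_filter.mp hw).2
  · intro w hw; exact (Finset.mem_filter.mp hw).2
  · intro S hS h1 h2
    have hX : ∀ w ∈ insert pad (F.image (wordOf (k + 1))),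
        (w ∈ gramLang G → w ∈ S.1) ∧ (w ∉ gramLang G → w ∈ S.2) := by
      intro w hw
      exact ⟨fun h => h1 w (Finset.mem_filter.mpr ⟨hw, h⟩),
        fun h => h2 w (Finset.mem_filter.mpr ⟨hw, h⟩)⟩
    have hLt : ∀ i, L i = true ↔ wordOf (k + 1) i ∈ gramLang G := fun i => memb_iff _ _
    have hLf : ∀ i, L i = false ↔ wordOf (k + 1) i ∉ gramLang G := by
      intro i
      rw [← hLt i]
      simp
    -- the total length
    have htot : T₀ ≤ total S := by
      have h3 : pad ∈ S.1 ∨ pad ∈ S.2 := by
        have := hX pad (Finset.mem_insert_self _ _)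
        by_cases h : pad ∈ gramLang G
        · exact Or.inl (this.1 h)
        · exact Or.inr (this.2 h)
      have h4 := length_le_total S pad h3
      rwa [hpad, List.length_replicate] at h4
    obtain ⟨j, hj1, hj2⟩ := hT₀ (total S) htot (lab S) (by
      intro i b hb
      unfold lab at hb
      split_ifs at hb with h3 h4
      · have := (hLt i).mpr (hS.1 _ h3)
        rw [this]
        simpa using hb.symm
      · have := (hLf i).mpr (hS.2 _ h4)
        rw [this]
        simpa using hb.symm) (by
      intro i hi
      have h3 := hX (wordOf (k + 1) i) (Finset.mem_insert_of_mem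
        (Finset.mem_image_of_mem _ ((hF i).mpr hi)))
      unfold lab
      by_cases h : wordOf (k + 1) i ∈ gramLang G
      · rw [if_pos (h3.1 h), (hLt i).mpr h]
      · rw [if_neg (fun h' => h (hS.1 _ h')), if_pos (h3.2 h), (hLf i).mpr h])
    have hlang : gramLang (gramOf (k + 1) j) = gramLang G := by
      ext w
      have h3 := hj2 (idx (bits w))
      unfold mat at h3
      rw [hL] at h3
      simp only [wordOf_idx] at h3
      rw [← memb_iff, ← memb_iff, h3]
    have hcand : cand S = gramOf (k + 1) j := by
      unfold cand
      rw [hj1]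
      rfl
    rw [learner_eq_of_consist S (by rw [hcand, hlang]; exact hS), hcand, hlang]
  · refine (Finset.card_insert_le _ _).trans ?_
    have := Finset.card_image_le (s := F) (f := wordOf (k + 1))
    omega

/-- **Main theorem.** -/
theorem main (k : ℕ) : ∃ A : Sample k → Gram k, IsLearner A ∧ ∃ q : Polynomial ℕ,
    ∀ G : ContextFreeGrammar (Fin k), ∃ CS : Finset (Word k) × Finset (Word k),
      IsCharacteristic A CS G.language ∧ CS.1.card + CS.2.card ≤ q.eval (gsize G) := by
  refine ⟨learner, isLearner_learner, 6 * (Polynomial.X * (4 * Polynomial.X +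
    Polynomial.C (4 * k + 16)) + 2) + 4, fun G => ?_⟩
  have hsz := sz_toGram_le G
  cases k with
  | zero =>
    obtain ⟨X, h1, h2⟩ := char_zero G.language
    refine ⟨_, h1, ?_⟩
    rw [splitBy_card]
    simp only [Polynomial.eval_add, Polynomial.eval_mul, Polynomial.eval_ofNat,
      Polynomial.eval_X, Polynomial.eval_C]
    omega
  | succ k =>
    obtain ⟨X, h1, h2⟩ := char_pos (toGram G)
    rw [lang_toGram] at h1
    refine ⟨_, h1, ?_⟩
    rw [splitBy_card]
    simp only [Polynomial.eval_add, Polynomial.eval_mul, Polynomial.eval_ofNat,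
      Polynomial.eval_X, Polynomial.eval_C]
    omega

end Pool.Agent.NPC.H660
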