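import Mathlib

/-!
# Context-free grammars: derivation trees and a membership algorithm
-/

namespace Pool.Agent.H660R2.Cfg

/-- conversion of a symbol -/
def toSym {T N : Type} : N ⊕ T → Symbol T N
  | Sum.inl A => Symbol.nonterminal A
  | Sum.inr a => Symbol.terminal a

def ofSym {T N : Type} : Symbol T N → N ⊕ T
  | Symbol.nonterminal A => Sum.inl A
  | Symbol.terminal a => Sum.inr a

@[simp] lemma toSym_ofSym {T N : Type} (s : Symbol T N) : toSym (ofSym s) = s := by
  cases s <;> rfl

@[simp] lemma ofSym_toSym {T N : Type} (s : N ⊕ T) : ofSym (toSym s) = s := by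
  cases s <;> rfl

lemma map_toSym_ofSym {T N : Type} (s : List (Symbol T N)) : (s.map ofSym).map toSym = s := by
  rw [List.map_map]
  conv_rhs => rw [← List.map_id s]
  apply List.map_congr_left
  intro x _
  simp

lemma toSym_injective {T N : Type} : Function.Injective (toSym : N ⊕ T → Symbol T N) := by
  intro a b h
  have := congrArg ofSym h
  simpa using this

/-- The word `v` is derived from the sentential form `s` (defined by derivation trees). -/
inductive Yield {T N : Type} (R : N → List (N ⊕ T) → Prop) : List (N ⊕ T) → List T → Prop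
  | nil : Yield R [] []
  | term (a : T) {s : List (N ⊕ T)} {v : List T} (h : Yield R s v) :
      Yield R (Sum.inr a :: s) (a :: v)
  | nt {A : N} {rhs s : List (N ⊕ T)} {v₁ v₂ : List T} (hr : R A rhs) (h₁ : Yield R rhs v₁)
      (h₂ : Yield R s v₂) : Yield R (Sum.inl A :: s) (v₁ ++ v₂)

variable {T N : Type}

lemma Yield.append {R : N → List (N ⊕ T) → Prop} {s₁ s₂ : List (N ⊕ T)} {v₁ v₂ : List T}
    (h₁ : Yield R s₁ v₁) (h₂ : Yield R s₂ v₂) : Yield R (s₁ ++ s₂) (v₁ ++ v₂) := by
  induction h₁ with
  | nil => exact h₂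
  | term a h ih => exact Yield.term a ih
  | nt hr h₁ h₂' _ ih =>
    rw [List.append_assoc]
    exact Yield.nt hr h₁ ih

lemma Yield.split {R : N → List (N ⊕ T) → Prop} : ∀ {s₁ s₂ : List (N ⊕ T)} {v : List T},
    Yield R (s₁ ++ s₂) v → ∃ v₁ v₂, v = v₁ ++ v₂ ∧ Yield R s₁ v₁ ∧ Yield R s₂ v₂
  | [], s₂, v, h => ⟨[], v, rfl, Yield.nil, h⟩
  | Sum.inr a :: s₁, s₂, v, h => by
    cases h with
    | term _ h =>
      obtain ⟨v₁, v₂, rfl, h₁, h₂⟩ := Yield.split h
      exact ⟨a :: v₁, v₂, rfl, Yield.term a h₁, h₂⟩
  | Sum.inl A :: s₁, s₂, v, h => by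
    cases h with
    | nt hr h h' =>
      obtain ⟨v₁, v₂, rfl, h₁, h₂⟩ := Yield.split h'
      exact ⟨_ ++ v₁, v₂, by rw [List.append_assoc], Yield.nt hr h h₁, h₂⟩

lemma Yield.single {R : N → List (N ⊕ T) → Prop} {A : N} {v : List T} :
    Yield R [Sum.inl A] v ↔ ∃ rhs, R A rhs ∧ Yield R rhs v := by
  constructor
  · intro h
    cases h with
    | nt hr h h' =>
      cases h'
      rw [List.append_nil]
      exact ⟨_, hr, h⟩
  · rintro ⟨rhs, hr, h⟩
    have := Yield.nt hr h (Yield.nil (R := R))
    rwa [List.append_nil] at this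

lemma Yield.terms {R : N → List (N ⊕ T) → Prop} (v : List T) : Yield R (v.map Sum.inr) v := by
  induction v with
  | nil => exact Yield.nil
  | cons a v ih => exact Yield.term a ih

/-- the productions of a grammar, as a relation -/
def ruleRel (G : ContextFreeGrammar T) (A : G.NT) (rhs : List (G.NT ⊕ T)) : Prop :=
  (⟨A, rhs.map toSym⟩ : ContextFreeRule T G.NT) ∈ G.rules

lemma derives_of_yield (G : ContextFreeGrammar T) {s : List (G.NT ⊕ T)} {v : List T}
    (h : Yield (ruleRel G) s v) : G.Derives (s.map toSym) (v.map Symbol.terminal) := by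
  induction h with
  | nil => exact ContextFreeGrammar.Derives.refl _
  | term a h ih =>
    have := ih.append_left [Symbol.terminal a]
    simpa [toSym] using this
  | @nt A rhs s v₁ v₂ hr h₁ h₂ ih₁ ih₂ =>
    have h1 : G.Derives [Symbol.nonterminal A] (rhs.map toSym) := by
      apply ContextFreeGrammar.Produces.single
      exact ⟨_, hr, ContextFreeRule.Rewrites.input_output⟩
    have h2 := (h1.trans ih₁).append_right (s.map toSym)
    have h3 := ih₂.append_left (v₁.map Symbol.terminal)
    have h4 := h2.trans h3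
    simpa [toSym] using h4

lemma yield_of_derives (G : ContextFreeGrammar T) {s : List (Symbol T G.NT)} {v : List T}
    (h : G.Derives s (v.map Symbol.terminal)) : Yield (ruleRel G) (s.map ofSym) v := by
  unfold ContextFreeGrammar.Derives at h
  induction h using Relation.ReflTransGen.head_induction_on with
  | refl =>
    rw [List.map_map]
    exact Yield.terms v
  | @head s s' h1 _ ih =>
    obtain ⟨r, hr, hrw⟩ := h1
    obtain ⟨p, q, rfl, rfl⟩ := hrw.exists_parts
    simp only [List.map_append] at ih ⊢
    obtain ⟨v1, v2, rfl, h2, h3⟩ := Yield.split ih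
    obtain ⟨v3, v4, rfl, h4, h5⟩ := Yield.split h2
    refine Yield.append (Yield.append h4 ?_) h3
    apply Yield.single.mpr
    refine ⟨r.output.map ofSym, ?_, h5⟩
    unfold ruleRel
    rw [map_toSym_ofSym]
    exact hr

lemma mem_language_iff_yield (G : ContextFreeGrammar T) (v : List T) :
    v ∈ G.language ↔ Yield (ruleRel G) [Sum.inl G.initial] v := by
  rw [ContextFreeGrammar.mem_language_iff]
  constructor
  · intro h
    exact yield_of_derives G h
  · intro h
    exact derives_of_yield G h

/-! ### Grammars as data -/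

/-- Words over the alphabet `{0, …, k - 1}`. -/
abbrev Word (k : ℕ) := List (Fin k)

/-- Context-free grammars over the alphabet `Fin k`, given by the list of their productions
`(A, α)`.  Nonterminals are natural numbers, the initial nonterminal is `0`; `Sum.inl B` stands for
the nonterminal `B` and `Sum.inr a` for the terminal `a`. -/
abbrev Gram (k : ℕ) := List (ℕ × List (ℕ ⊕ Fin k))

/-- The grammar in the sense of Mathlib. -/
def toCFG {k : ℕ} (G : Gram k) : ContextFreeGrammar (Fin k) where
  NT := ℕ
  initial := 0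
  rules := (G.map fun r => ⟨r.1, r.2.map toSym⟩).toFinset

/-- The language of a grammar. -/
def gramLang {k : ℕ} (G : Gram k) : Language (Fin k) := (toCFG G).language

/-- the productions as a relation -/
def gramRel {k : ℕ} (G : Gram k) (A : ℕ) (rhs : List (ℕ ⊕ Fin k)) : Prop := (A, rhs) ∈ G

lemma ruleRel_toCFG {k : ℕ} (G : Gram k) (A : ℕ) (rhs : List (ℕ ⊕ Fin k)) :
    ruleRel (toCFG G) A rhs ↔ gramRel G A rhs := by
  unfold ruleRel gramRel toCFG
  simp only [List.mem_toFinset, List.mem_map, ContextFreeRule.mk.injEq]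
  constructor
  · rintro ⟨⟨B, r⟩, h, h1, h2⟩
    simp only at h1 h2
    have : r = rhs := List.map_injective_iff.mpr toSym_injective h2
    rw [← h1, ← this]; exact h
  · intro h
    exact ⟨(A, rhs), h, rfl, rfl⟩

lemma Yield.mono {R R' : N → List (N ⊕ T) → Prop} (hR : ∀ A rhs, R A rhs → R' A rhs)
    {s : List (N ⊕ T)} {v : List T} (h : Yield R s v) : Yield R' s v := by
  induction h with
  | nil => exact Yield.nil
  | term a _ ih => exact Yield.term a ih
  | nt hr _ _ ih1 ih2 => exact Yield.nt (hR _ _ hr) ih1 ih2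

lemma mem_gramLang_iff {k : ℕ} (G : Gram k) (v : Word k) :
    v ∈ gramLang G ↔ ∃ rhs, (0, rhs) ∈ G ∧ Yield (gramRel G) rhs v := by
  unfold gramLang
  rw [mem_language_iff_yield]
  have key : Yield (N := ℕ) (T := Fin k) (ruleRel (toCFG G)) [Sum.inl (0 : ℕ)] v ↔
      ∃ rhs : List (ℕ ⊕ Fin k), ruleRel (toCFG G) (0 : ℕ) rhs ∧
        Yield (N := ℕ) (T := Fin k) (ruleRel (toCFG G)) rhs v := Yield.single
  refine Iff.trans key ?_
  constructor
  · rintro ⟨rhs, h1, h2⟩
    exact ⟨rhs, (ruleRel_toCFG G _ _).mp h1, h2.mono fun A r h => (ruleRel_toCFG G A r).mp h⟩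
  · rintro ⟨rhs, h1, h2⟩
    exact ⟨rhs, (ruleRel_toCFG G _ _).mpr h1, h2.mono fun A r h => (ruleRel_toCFG G A r).mpr h⟩

/-! ### The membership algorithm -/

/-- can the symbol `s` derive the factor of `w` between positions `p` and `p'`, using the facts
`(B, p, p')` in `D`? -/
def stepPos {k : ℕ} (w : Word k) (D : List (ℕ × ℕ × ℕ)) (s : ℕ ⊕ Fin k) (p p' : ℕ) : Bool :=
  Sum.elim (fun B => decide ((B, p, p') ∈ D))
    (fun a => decide (w[p]? = some a) && decide (p' = p + 1)) s

/-- one step of the computation of the reachable positions -/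
def stepSet {k : ℕ} (w : Word k) (D : List (ℕ × ℕ × ℕ)) (R : List ℕ) (s : ℕ ⊕ Fin k) : List ℕ :=
  (List.range (w.length + 1)).filter (fun p' => R.any (fun p => stepPos w D s p p'))

/-- the positions reachable from those in `R` with the sentential form `rhs` -/
def reach {k : ℕ} (w : Word k) (D : List (ℕ × ℕ × ℕ)) (rhs : List (ℕ ⊕ Fin k)) (R : List ℕ) :
    List ℕ :=
  rhs.foldl (stepSet w D) R

/-- one round of the closure -/
def closure1 {k : ℕ} (w : Word k) (G : Gram k) (D : List (ℕ × ℕ × ℕ)) : List (ℕ × ℕ × ℕ) :=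
  G.flatMap (fun r => (List.range (w.length + 1)).flatMap
    (fun i => (reach w D r.2 [i]).map (fun j => (r.1, i, j))))

/-- the table of all facts `(A, i, j)` -/
def table {k : ℕ} (w : Word k) (G : Gram k) (t : ℕ) : List (ℕ × ℕ × ℕ) := (closure1 w G)^[t] []

/-- the membership test -/
def memb {k : ℕ} (w : Word k) (G : Gram k) : Bool :=
  decide ((0, 0, w.length) ∈ table w G (G.length * ((w.length + 1) * (w.length + 1)) + 1))

variable {k : ℕ}

lemma mem_stepSet {w : Word k} {D : List (ℕ × ℕ × ℕ)} {R : List ℕ} {s : ℕ ⊕ Fin k} {p' : ℕ} :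
    p' ∈ stepSet w D R s ↔ p' ≤ w.length ∧ ∃ p ∈ R, stepPos w D s p p' = true := by
  unfold stepSet
  simp only [List.mem_filter, List.mem_range, List.any_eq_true]
  constructor
  · rintro ⟨h1, h2⟩; exact ⟨by omega, h2⟩
  · rintro ⟨h1, h2⟩; exact ⟨by omega, h2⟩

lemma mem_closure1 {w : Word k} {G : Gram k} {D : List (ℕ × ℕ × ℕ)} {x : ℕ × ℕ × ℕ} :
    x ∈ closure1 w G D ↔ ∃ rhs, (x.1, rhs) ∈ G ∧ x.2.1 ≤ w.length ∧ x.2.2 ∈ reach w D rhs [x.2.1] := by
  unfold closure1
  simp only [List.mem_flatMap, List.mem_range, List.mem_map]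
  constructor
  · rintro ⟨⟨A, rhs⟩, h1, i, h2, j, h3, rfl⟩
    exact ⟨rhs, h1, by simp only; omega, h3⟩
  · rintro ⟨rhs, h1, h2, h3⟩
    exact ⟨(x.1, rhs), h1, x.2.1, by omega, x.2.2, h3, rfl⟩

/-- the factor of `w` between positions `i` and `j` -/
def factor (w : Word k) (i j : ℕ) : Word k := (w.take j).drop i

lemma factor_self (w : Word k) (i : ℕ) : factor w i i = [] := by
  unfold factor
  rw [List.drop_eq_nil_iff, List.length_take]
  exact min_le_left _ _

lemma factor_full (w : Word k) : factor w 0 w.length = w := by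
  simp [factor]

lemma factor_append (w : Word k) {i j l : ℕ} (h1 : i ≤ j) (h2 : j ≤ l) (h3 : l ≤ w.length) :
    factor w i j ++ factor w j l = factor w i l := by
  unfold factor
  apply List.ext_getElem?
  intro n
  rw [List.getElem?_append]
  simp only [List.length_drop, List.length_take, List.getElem?_drop, List.getElem?_take]
  have e1 : min j w.length = j := min_eq_left (by omega)
  rw [e1]
  split_ifs with a b c d <;> first | rfl | (congr 1; omega) | (exfalso; omega) | skip

lemma factor_cons (w : Word k) {p : ℕ} {a : Fin k} (h : w[p]? = some a) :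
    factor w p (p + 1) = [a] := by
  unfold factor
  apply List.ext_getElem?
  intro n
  simp only [List.getElem?_drop, List.getElem?_take]
  cases n with
  | zero => simp [h]
  | succ n => simp

/-- soundness of a table -/
def Sound (w : Word k) (G : Gram k) (D : List (ℕ × ℕ × ℕ)) : Prop :=
  ∀ A i j, (A, i, j) ∈ D → i ≤ j ∧ j ≤ w.length ∧
    ∃ rhs, (A, rhs) ∈ G ∧ Yield (gramRel G) rhs (factor w i j)

lemma reach_sound {w : Word k} {G : Gram k} {D : List (ℕ × ℕ × ℕ)} (hD : Sound w G D) :
    ∀ (rhs : List (ℕ ⊕ Fin k)) (R : List ℕ), (∀ p ∈ R, p ≤ w.length) → ∀ j ∈ reach w D rhs R,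
      ∃ p ∈ R, p ≤ j ∧ j ≤ w.length ∧ Yield (gramRel G) rhs (factor w p j)
  | [], R, hR, j, hj => ⟨j, hj, le_rfl, hR j hj, by rw [factor_self]; exact Yield.nil⟩
  | s :: rhs, R, hR, j, hj => by
    have h1 : j ∈ reach w D rhs (stepSet w D R s) := hj
    obtain ⟨p', hp', h2, h3, h4⟩ := reach_sound hD rhs _ (fun p hp => (mem_stepSet.mp hp).1) j h1
    obtain ⟨h5, p, hp, h6⟩ := mem_stepSet.mp hp'
    cases s with
    | inl B =>
      have h7 : (B, p, p') ∈ D := by simpa [stepPos] using h6
      obtain ⟨h8, h9, rhs', h10, h11⟩ := hD B p p' h7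
      refine ⟨p, hp, by omega, h3, ?_⟩
      rw [← factor_append w h8 h2 h3]
      exact Yield.nt h10 h11 h4
    | inr a =>
      have h7 : w[p]? = some a ∧ p' = p + 1 := by simpa [stepPos] using h6
      refine ⟨p, hp, by omega, h3, ?_⟩
      rw [← factor_append w (j := p') (by omega) h2 h3, h7.2, factor_cons w h7.1]
      rw [h7.2] at h4
      exact Yield.term a h4

lemma table_sound (w : Word k) (G : Gram k) (t : ℕ) : Sound w G (table w G t) := by
  induction t with
  | zero => intro A i j h; simp [table] at h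
  | succ t ih =>
    intro A i j h
    unfold table at h
    rw [Function.iterate_succ_apply'] at h
    obtain ⟨rhs, h1, h2, h3⟩ := mem_closure1.mp h
    obtain ⟨p, hp, h4, h5, h6⟩ := reach_sound ih rhs [i] (by simpa using h2) j h3
    have : p = i := by simpa using hp
    subst this
    exact ⟨h4, h5, rhs, h1, h6⟩

lemma factor_length {w : Word k} {i j : ℕ} (h1 : i ≤ j) (h2 : j ≤ w.length) :
    (factor w i j).length = j - i := by
  unfold factor
  rw [List.length_drop, List.length_take, min_eq_left h2]

/-- completeness -/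
lemma reach_complete {w : Word k} {G : Gram k} {s : List (ℕ ⊕ Fin k)} {v : Word k}
    (h : Yield (gramRel G) s v) : ∀ i, i + v.length ≤ w.length → factor w i (i + v.length) = v →
      ∃ t0, ∀ t ≥ t0, ∀ R : List ℕ, i ∈ R → i + v.length ∈ reach w (table w G t) s R := by
  induction h with
  | nil => intro i _ _; exact ⟨0, fun t _ R hi => hi⟩
  | @term a s v h ih =>
    intro i h1 h2
    rw [List.length_cons] at h1 h2
    have hi : i < w.length := by omega
    have h3 : w[i]? = some a := by
      have := congrArg (fun l => l[0]?) h2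
      simpa [factor, List.getElem?_take, hi] using this
    have h4 : factor w (i + 1) (i + 1 + v.length) = v := by
      have h5 := factor_append w (i := i) (j := i + 1) (l := i + (v.length + 1)) (by omega)
        (by omega) h1
      rw [h2, factor_cons w h3] at h5
      have e : i + 1 + v.length = i + (v.length + 1) := by omega
      rw [e]
      simpa using h5
    obtain ⟨t0, ht0⟩ := ih (i + 1) (by omega) h4
    refine ⟨t0, fun t ht R hR => ?_⟩
    have h5 := ht0 t ht (stepSet w (table w G t) R (Sum.inr a))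
      (mem_stepSet.mpr ⟨by omega, i, hR, by simp [stepPos, h3]⟩)
    have e : i + 1 + v.length = i + (a :: v).length := by rw [List.length_cons]; omega
    rw [← e]
    exact h5
  | @nt A rhs s v₁ v₂ hr h₁ h₂ ih₁ ih₂ =>
    intro i h1 h2
    rw [List.length_append] at h1 h2
    have h3 : factor w i (i + v₁.length) ++ factor w (i + v₁.length) (i + v₁.length + v₂.length) =
        v₁ ++ v₂ := by
      rw [factor_append w (by omega) (by omega) (by omega), ← h2]
      congr 1
      omega
    have h4 := List.append_inj h3 (by rw [factor_length (by omega) (by omega)]; omega)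
    obtain ⟨t1, ht1⟩ := ih₁ i (by omega) h4.1
    obtain ⟨t2, ht2⟩ := ih₂ (i + v₁.length) (by omega) h4.2
    refine ⟨max (t1 + 1) t2, fun t ht R hR => ?_⟩
    have ht3 : t1 + 1 ≤ t := le_trans (le_max_left _ _) ht
    have ht4 : t2 ≤ t := le_trans (le_max_right _ _) ht
    obtain ⟨t', rfl⟩ : ∃ t', t = t' + 1 := ⟨t - 1, by omega⟩
    have h5 : (A, i, i + v₁.length) ∈ table w G (t' + 1) := by
      unfold table
      rw [Function.iterate_succ_apply']
      apply mem_closure1.mpr
      exact ⟨rhs, hr, by simp only; omega, ht1 t' (by omega) [i] (by simp)⟩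
    have h6 := ht2 (t' + 1) ht4 (stepSet w (table w G (t' + 1)) R (Sum.inl A))
      (mem_stepSet.mpr ⟨by omega, i, hR, by simpa [stepPos] using h5⟩)
    have e : i + v₁.length + v₂.length = i + (v₁ ++ v₂).length := by
      rw [List.length_append]; omega
    rw [← e]
    exact h6

/-! #### Stabilisation -/

lemma reach_mono {w : Word k} {D D' : List (ℕ × ℕ × ℕ)} (hD : ∀ x ∈ D, x ∈ D') :
    ∀ (rhs : List (ℕ ⊕ Fin k)) (R R' : List ℕ), (∀ p ∈ R, p ∈ R') →
      ∀ j ∈ reach w D rhs R, j ∈ reach w D' rhs R'
  | [], R, R', hR, j, hj => hR j hj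
  | s :: rhs, R, R', hR, j, hj => by
    refine reach_mono hD rhs (stepSet w D R s) (stepSet w D' R' s) ?_ j hj
    intro p' hp'
    obtain ⟨h1, p, hp, h2⟩ := mem_stepSet.mp hp'
    refine mem_stepSet.mpr ⟨h1, p, hR p hp, ?_⟩
    cases s with
    | inl B =>
      have h3 : (B, p, p') ∈ D := by simpa [stepPos] using h2
      simpa [stepPos] using hD _ h3
    | inr a => exact h2

lemma closure1_mono {w : Word k} {G : Gram k} {D D' : List (ℕ × ℕ × ℕ)} (hD : ∀ x ∈ D, x ∈ D') :
    ∀ x ∈ closure1 w G D, x ∈ closure1 w G D' := by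
  intro x hx
  obtain ⟨rhs, h1, h2, h3⟩ := mem_closure1.mp hx
  exact mem_closure1.mpr ⟨rhs, h1, h2, reach_mono hD rhs _ _ (fun _ h => h) _ h3⟩

lemma table_succ (w : Word k) (G : Gram k) (t : ℕ) :
    table w G (t + 1) = closure1 w G (table w G t) := by
  unfold table
  rw [Function.iterate_succ_apply']

lemma table_mono (w : Word k) (G : Gram k) (t : ℕ) :
    ∀ x ∈ table w G t, x ∈ table w G (t + 1) := by
  induction t with
  | zero => intro x hx; simp [table] at hx
  | succ t ih =>
    intro x hx
    rw [table_succ] at hx ⊢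
    exact closure1_mono ih x hx

lemma stabilize {α : Type} [DecidableEq α] (F : ℕ → Finset α) (U : Finset α)
    (hsub : ∀ t, F t ⊆ U) (hmono : ∀ t, F t ⊆ F (t + 1))
    (hstep : ∀ t, F (t + 1) = F t → F (t + 2) = F (t + 1)) :
    ∀ t, F t ⊆ F U.card := by
  have hm : Monotone F := monotone_nat_of_le_succ hmono
  have key : ∃ m ≤ U.card, F (m + 1) = F m := by
    by_contra hcon
    push Not at hcon
    have h1 : ∀ n ≤ U.card + 1, n ≤ (F n).card := by
      intro n
      induction n with
      | zero => intro _; omega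
      | succ n ih =>
        intro hn
        have h2 := ih (by omega)
        have h3 : F n ⊂ F (n + 1) :=
          (hmono n).ssubset_of_ne (fun h => hcon n (by omega) h.symm)
        have := Finset.card_lt_card h3
        omega
    have h2 := h1 (U.card + 1) le_rfl
    have h3 := Finset.card_le_card (hsub (U.card + 1))
    omega
  obtain ⟨m, hm1, hm2⟩ := key
  have hstable : ∀ d, F (m + d) = F m := by
    intro d
    have : ∀ d, F (m + d + 1) = F (m + d) := by
      intro d
      induction d with
      | zero => exact hm2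
      | succ d ih => exact hstep (m + d) ih
    induction d with
    | zero => rfl
    | succ d ih => rw [← add_assoc, this d, ih]
  intro t
  rcases le_total t m with h | h
  · exact (hm h).trans (hm hm1)
  · obtain ⟨d, rfl⟩ := Nat.exists_eq_add_of_le h
    rw [hstable d]
    exact hm hm1

lemma table_stable (w : Word k) (G : Gram k) (t : ℕ) :
    ∀ x ∈ table w G t, x ∈ table w G (G.length * ((w.length + 1) * (w.length + 1)) + 1) := by
  set U : Finset (ℕ × ℕ × ℕ) := (G.map (·.1)).toFinset ×ˢ
    (Finset.range (w.length + 1) ×ˢ Finset.range (w.length + 1)) with hU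
  have hcard : U.card ≤ G.length * ((w.length + 1) * (w.length + 1)) := by
    rw [hU, Finset.card_product, Finset.card_product, Finset.card_range]
    have h1 : (G.map (·.1)).toFinset.card ≤ G.length := by
      have := List.toFinset_card_le (G.map (·.1))
      simpa using this
    gcongr
  have hsets : ∀ D D' : List (ℕ × ℕ × ℕ), D.toFinset = D'.toFinset →
      (closure1 w G D).toFinset = (closure1 w G D').toFinset := by
    intro D D' h
    ext x
    simp only [List.mem_toFinset]
    have h1 : ∀ x, x ∈ D ↔ x ∈ D' := by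
      intro x
      rw [← List.mem_toFinset, h, List.mem_toFinset]
    exact ⟨closure1_mono (fun x hx => (h1 x).mp hx) x, closure1_mono (fun x hx => (h1 x).mpr hx) x⟩
  have h1 := stabilize (fun t => (table w G t).toFinset) U (by
    intro t x hx
    rw [List.mem_toFinset] at hx
    cases t with
    | zero => simp [table] at hx
    | succ t =>
      obtain ⟨A, i, j⟩ := x
      have hs := table_sound w G (t + 1) A i j hx
      rw [table_succ] at hx
      obtain ⟨rhs, h1, h2, h3⟩ := mem_closure1.mp hx
      simp only [hU, Finset.mem_product, List.mem_toFinset, List.mem_map, Finset.mem_range]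
      exact ⟨⟨_, h1, rfl⟩, by simp only at h2; omega, by omega⟩)
    (by
      intro t x hx
      rw [List.mem_toFinset] at hx ⊢
      exact table_mono w G t x hx)
    (by
      intro t h
      simp only [table_succ] at h ⊢
      rw [hsets _ _ h])
  intro x hx
  have hm : Monotone (fun t => (table w G t).toFinset) := by
    apply monotone_nat_of_le_succ
    intro t x hx
    rw [List.mem_toFinset] at hx ⊢
    exact table_mono w G t x hx
  have h2 := hm (show U.card ≤ G.length * ((w.length + 1) * (w.length + 1)) + 1 by omega)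
    (h1 t (List.mem_toFinset.mpr hx))
  exact List.mem_toFinset.mp h2

/-- **Correctness of the membership test.** -/
theorem memb_iff (w : Word k) (G : Gram k) : memb w G = true ↔ w ∈ gramLang G := by
  rw [mem_gramLang_iff]
  unfold memb
  rw [decide_eq_true_eq]
  constructor
  · intro h
    obtain ⟨-, -, rhs, h1, h2⟩ := table_sound w G _ 0 0 w.length h
    rw [factor_full] at h2
    exact ⟨rhs, h1, h2⟩
  · rintro ⟨rhs, h1, h2⟩
    obtain ⟨t0, ht0⟩ := reach_complete (w := w) h2 0 (by omega) (by
      rw [zero_add]; exact factor_full w)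
    have h3 : (0, 0, w.length) ∈ table w G (t0 + 1) := by
      rw [table_succ]
      apply mem_closure1.mpr
      refine ⟨rhs, h1, by simp, ?_⟩
      have := ht0 t0 le_rfl [0] (by simp)
      simpa using this
    exact table_stable w G _ _ h3

end Pool.Agent.H660R2.Cfg
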