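import Pool.Agent.NPC.Dec
import Pool.Agent.H671R2.PolyAuto
import Pool.Agent.H660R2.Cfg.Yield

/-!
# The membership test runs in polynomial time
-/

namespace Pool.Agent.NPC.H660

open Pool.Agent.H660R2.Cfg

/-- Letters are coded as natural numbers. -/
instance finEnc (k : ℕ) : TEnc (Fin k) :=
  ⟨fun a => toT (a : ℕ), fun _ _ h => Fin.ext (TEnc.inj h)⟩

lemma toT_fin {k : ℕ} (a : Fin k) : toT a = toT (a : ℕ) := rfl

/-- Decoding of letters. -/
def finDec (k : ℕ) (n : ℕ) : Option (Fin k) := if h : n < k then some ⟨n, h⟩ else none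

lemma poly_finDec (k : ℕ) : Poly (finDec k) := by
  have h1 : Poly (fun n : ℕ => if n < k then some n else none) := by fun_prop
  refine Poly.of_toT ((Poly.toT' h1).congr fun n => ?_)
  unfold finDec
  by_cases h : n < k
  · rw [if_pos h, dif_pos h]; rfl
  · rw [if_neg h, dif_neg h]; rfl

instance finTDec (k : ℕ) : TDec (Fin k) :=
  TDec.of (β := ℕ) (fun a => (a : ℕ)) (finDec k) (fun _ => rfl)
    (fun a => by unfold finDec; rw [dif_pos a.2])
    (fun n a h => by
      unfold finDec at h
      split_ifs at h with hn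
      simp only [Option.some.injEq] at h
      rw [← h])
    (poly_finDec k)

variable {α β : Type} [TEnc α] [TEnc β] {k : ℕ}

lemma sz_filter_le (l : List β) (p : β → Bool) : sz (l.filter p) ≤ sz l := by
  induction l with
  | nil => simp
  | cons a l ih =>
    rw [List.filter_cons]
    split_ifs
    · simp only [sz_list_cons]; omega
    · simp only [sz_list_cons]; omega

lemma poly_stepPos : Poly (fun x : Word k × List (ℕ × ℕ × ℕ) × (ℕ ⊕ Fin k) × ℕ × ℕ =>
    stepPos x.1 x.2.1 x.2.2.1 x.2.2.2.1 x.2.2.2.2) := by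
  unfold stepPos
  refine Poly.sumElim (o := fun x : Word k × List (ℕ × ℕ × ℕ) × (ℕ ⊕ Fin k) × ℕ × ℕ => x.2.2.1)
    (g := fun x B => decide ((B, x.2.2.2.1, x.2.2.2.2) ∈ x.2.1))
    (h := fun x a => decide (x.1[x.2.2.2.1]? = some a) && decide (x.2.2.2.2 = x.2.2.2.1 + 1))
    ?_ ?_ ?_
  · fun_prop
  · fun_prop
  · fun_prop

attribute [local irreducible] stepPos in
lemma poly_stepSet : Poly (fun x : Word k × List (ℕ × ℕ × ℕ) × List ℕ × (ℕ ⊕ Fin k) =>
    stepSet x.1 x.2.1 x.2.2.1 x.2.2.2) := by
  unfold stepSet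
  refine Poly.filter (p := fun (x : Word k × List (ℕ × ℕ × ℕ) × List ℕ × (ℕ ⊕ Fin k)) p' =>
    x.2.2.1.any (fun p => stepPos x.1 x.2.1 x.2.2.2 p p')) ?_ ?_
  · exact ((UPoly.length (Poly.fst Poly.id)).add (UPoly.const 1)).range
  · refine Poly.any (p := fun (y : (Word k × List (ℕ × ℕ × ℕ) × List ℕ × (ℕ ⊕ Fin k)) × ℕ) p =>
      stepPos y.1.1 y.1.2.1 y.1.2.2.2 p y.2) ?_ ?_
    · fun_prop
    · exact poly_stepPos.comp (f := fun (z : ((Word k × List (ℕ × ℕ × ℕ) × List ℕ ×
        (ℕ ⊕ Fin k)) × ℕ) × ℕ) => (z.1.1.1, z.1.1.2.1, z.1.1.2.2.2, z.2, z.1.2)) (by fun_prop)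

lemma sz_stepSet_le (w : Word k) (D : List (ℕ × ℕ × ℕ)) (R : List ℕ) (s : ℕ ⊕ Fin k) :
    sz (stepSet w D R s) ≤ sz (List.range (w.length + 1)) := sz_filter_le _ _

lemma reach_sub (w : Word k) (D : List (ℕ × ℕ × ℕ)) (rhs : List (ℕ ⊕ Fin k)) (R : List ℕ) :
    reach w D rhs R = R ∨ ∃ p : ℕ → Bool, reach w D rhs R = (List.range (w.length + 1)).filter p := by
  induction rhs generalizing R with
  | nil => exact Or.inl rfl
  | cons s rhs ih =>
    right
    rcases ih (stepSet w D R s) with h | h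
    · exact ⟨_, h⟩
    · exact h

lemma sz_reach_le (w : Word k) (D : List (ℕ × ℕ × ℕ)) (rhs : List (ℕ ⊕ Fin k)) (R : List ℕ) :
    sz (reach w D rhs R) ≤ sz R + sz (List.range (w.length + 1)) := by
  rcases reach_sub w D rhs R with h | ⟨p, h⟩
  · rw [h]; omega
  · rw [h]
    have := sz_filter_le (List.range (w.length + 1)) p
    omega

attribute [local irreducible] stepSet in
lemma poly_reach : Poly (fun x : Word k × List (ℕ × ℕ × ℕ) × List (ℕ ⊕ Fin k) × List ℕ =>
    reach x.1 x.2.1 x.2.2.1 x.2.2.2) := by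
  unfold reach
  obtain ⟨q1, hq1⟩ := ((UPoly.length (α := Word k × List (ℕ × ℕ × ℕ) × List (ℕ ⊕ Fin k) × List ℕ)
    (Poly.fst Poly.id)).add (UPoly.const 1)).range.sz_le
  refine Poly.foldl (F := fun (x : Word k × List (ℕ × ℕ × ℕ) × List (ℕ ⊕ Fin k) × List ℕ) R s =>
    stepSet x.1 x.2.1 R s) ?_ ?_ ?_ (Polynomial.X + q1) ?_
  · fun_prop
  · fun_prop
  · exact poly_stepSet.comp (f := fun (y : (Word k × List (ℕ × ℕ × ℕ) × List (ℕ ⊕ Fin k) ×
      List ℕ) × List ℕ × (ℕ ⊕ Fin k)) => (y.1.1, y.1.2.1, y.2.1, y.2.2)) (by fun_prop)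
  · intro x n hn
    have h1 := sz_reach_le x.1 x.2.1 (x.2.2.1.take n) x.2.2.2
    have h2 := hq1 x
    have h3 : sz x.2.2.2 ≤ sz x := by
      obtain ⟨a, b, c, d⟩ := x
      simp only [sz_pair]
      omega
    change sz (reach x.1 x.2.1 (x.2.2.1.take n) x.2.2.2) ≤ _
    rw [Polynomial.eval_add, Polynomial.eval_X]
    exact h1.trans (Nat.add_le_add h3 h2)

attribute [local irreducible] reach in
lemma poly_closure1 : Poly (fun x : Word k × Gram k × List (ℕ × ℕ × ℕ) =>
    closure1 x.1 x.2.1 x.2.2) := by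
  unfold closure1
  refine Poly.flatMap (F := fun (x : Word k × Gram k × List (ℕ × ℕ × ℕ))
    (r : ℕ × List (ℕ ⊕ Fin k)) =>
    (List.range (x.1.length + 1)).flatMap (fun i => (reach x.1 x.2.2 r.2 [i]).map
      (fun j => (r.1, i, j)))) ?_ ?_
  · fun_prop
  · refine Poly.flatMap (F := fun (y : (Word k × Gram k × List (ℕ × ℕ × ℕ)) ×
      (ℕ × List (ℕ ⊕ Fin k))) i => (reach y.1.1 y.1.2.2 y.2.2 [i]).map
        (fun j => (y.2.1, i, j))) ?_ ?_
    · exact ((UPoly.length (Poly.fst (Poly.fst Poly.id))).add (UPoly.const 1)).range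
    · refine Poly.map (F := fun (z : ((Word k × Gram k × List (ℕ × ℕ × ℕ)) ×
        (ℕ × List (ℕ ⊕ Fin k))) × ℕ) j => (z.1.2.1, z.2, j)) ?_ ?_
      · exact poly_reach.comp (f := fun (z : ((Word k × Gram k × List (ℕ × ℕ × ℕ)) ×
        (ℕ × List (ℕ ⊕ Fin k))) × ℕ) => (z.1.1.1, z.1.1.2.2, z.1.2.2, [z.2])) (by fun_prop)
      · fun_prop

lemma length_flatMap_le {γ δ : Type} (l : List γ) (f : γ → List δ) (B : ℕ)
    (h : ∀ a ∈ l, (f a).length ≤ B) : (l.flatMap f).length ≤ l.length * B := by
  induction l with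
  | nil => simp
  | cons a l ih =>
    rw [List.flatMap_cons, List.length_append, List.length_cons]
    have h1 := h a (by simp)
    have h2 := ih (fun b hb => h b (List.mem_cons_of_mem _ hb))
    nlinarith

lemma length_reach_le (w : Word k) (D : List (ℕ × ℕ × ℕ)) (rhs : List (ℕ ⊕ Fin k)) (i : ℕ) :
    (reach w D rhs [i]).length ≤ w.length + 1 := by
  rcases reach_sub w D rhs [i] with h | ⟨p, h⟩
  · rw [h]; simp
  · rw [h]
    have := List.length_filter_le p (List.range (w.length + 1))
    rwa [List.length_range] at this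

lemma mem_reach_le (w : Word k) (D : List (ℕ × ℕ × ℕ)) (rhs : List (ℕ ⊕ Fin k)) (i j : ℕ)
    (hi : i ≤ w.length) (h : j ∈ reach w D rhs [i]) : j ≤ w.length := by
  rcases reach_sub w D rhs [i] with h' | ⟨p, h'⟩
  · rw [h'] at h
    simp at h
    omega
  · rw [h', List.mem_filter, List.mem_range] at h
    omega

lemma sz_closure1_le (w : Word k) (G : Gram k) (D : List (ℕ × ℕ × ℕ)) :
    sz (closure1 w G D) ≤ G.length * ((w.length + 1) * (w.length + 1)) *
      (sz G + 2 * sz (List.range (w.length + 1)) + 3) + 1 := by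
  have h1 : (closure1 w G D).length ≤ G.length * ((w.length + 1) * (w.length + 1)) := by
    unfold closure1
    apply length_flatMap_le
    intro r _
    have := length_flatMap_le (List.range (w.length + 1)) (fun i => (reach w D r.2 [i]).map
      (fun j => (r.1, i, j))) (w.length + 1) (fun i _ => by
        rw [List.length_map]; exact length_reach_le w D r.2 i)
    rwa [List.length_range] at this
  have h2 : ∀ x ∈ closure1 w G D, sz x ≤ sz G + 2 * sz (List.range (w.length + 1)) + 2 := by
    rintro ⟨A, i, j⟩ hx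
    obtain ⟨rhs, h3, h4, h5⟩ := mem_closure1.mp hx
    simp only at h3 h4 h5
    have h6 := sz_le_of_mem h3
    have h7 := mem_reach_le w D rhs i j h4 h5
    have h8 : i ∈ List.range (w.length + 1) := List.mem_range.mpr (by omega)
    have h9 : j ∈ List.range (w.length + 1) := List.mem_range.mpr (by omega)
    have h10 := sz_le_of_mem h8
    have h11 := sz_le_of_mem h9
    simp only [sz_pair] at h6 ⊢
    omega
  refine (sz_le_length_mul _ _ h2).trans ?_
  exact Nat.add_le_add_right
    (Nat.mul_le_mul_right (sz G + 2 * sz (List.range (w.length + 1)) + 2 + 1) h1) 1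

attribute [local irreducible] closure1 in
lemma poly_table : Poly (fun x : Word k × Gram k =>
    table x.1 x.2 (x.2.length * ((x.1.length + 1) * (x.1.length + 1)) + 1)) := by
  have hu1 : UPoly (fun x : Word k × Gram k => x.1.length + 1) :=
    (UPoly.length (Poly.fst Poly.id)).add (UPoly.const 1)
  have hu2 : UPoly (fun x : Word k × Gram k =>
      x.2.length * ((x.1.length + 1) * (x.1.length + 1)) + 1) :=
    ((UPoly.length (Poly.snd Poly.id)).mul (hu1.mul hu1)).add (UPoly.const 1)
  obtain ⟨q1, hq1⟩ := hu1.range.sz_le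
  have h1 : Poly (fun x : Word k × Gram k => (closure1 x.1 x.2)^[(List.range
      (x.2.length * ((x.1.length + 1) * (x.1.length + 1)) + 1)).length] []) := by
    refine Poly.iterLen (s := fun _ => ([] : List (ℕ × ℕ × ℕ)))
      (F := fun (x : Word k × Gram k) (D : List (ℕ × ℕ × ℕ)) => closure1 x.1 x.2 D)
      hu2.range (Poly.const _) ?_
      (Polynomial.X * ((Polynomial.X + 1) * (Polynomial.X + 1)) *
        (Polynomial.X + 2 * q1 + 3) + 1) ?_
    · exact poly_closure1.comp (f := fun (y : (Word k × Gram k) × List (ℕ × ℕ × ℕ)) =>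
        (y.1.1, y.1.2, y.2)) (by fun_prop)
    · intro x n hn
      have hX : 1 ≤ sz x := sz_pos x
      cases n with
      | zero =>
        simp only [Function.iterate_zero, id, sz_list_nil, Polynomial.eval_add,
          Polynomial.eval_one]
        omega
      | succ n =>
        rw [Function.iterate_succ_apply']
        refine (sz_closure1_le x.1 x.2 _).trans ?_
        have h2 := hq1 x
        have h3 : x.2.length ≤ sz x := by
          have := length_lt_sz x.2
          obtain ⟨a, b⟩ := x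
          simp only [sz_pair] at this ⊢
          omega
        have h4 : x.1.length ≤ sz x := by
          have := length_lt_sz x.1
          obtain ⟨a, b⟩ := x
          simp only [sz_pair] at this ⊢
          omega
        have h5 : sz x.2 ≤ sz x := by
          obtain ⟨a, b⟩ := x
          simp only [sz_pair]
          omega
        simp only [Polynomial.eval_add, Polynomial.eval_mul, Polynomial.eval_X,
          Polynomial.eval_one, Polynomial.eval_ofNat]
        gcongr
  refine h1.congr fun x => ?_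
  rw [List.length_range]
  rfl

attribute [local irreducible] table in
lemma poly_memb : Poly (fun x : Word k × Gram k => memb x.1 x.2) := by
  unfold memb
  have h := poly_table (k := k)
  exact Poly.dec_mem (f := fun x : Word k × Gram k => ((0 : ℕ), (0 : ℕ), x.1.length))
    (by fun_prop) h

end Pool.Agent.NPC.H660
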